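import Mathlib
import Pool.Agent.Helper61_Gamma.Plane

/-!
Two classes of point sets in a projective plane which cannot lose a few points and then have many
tangents at every point: sets with a long line and sets with many secants.
-/

open Configuration Configuration.ProjectivePlane

namespace Pool.Agent.Helper85_Gamma

open Pool.Agent.Helper61_Gamma

variable {P L : Type*} [Membership P L] [ProjectivePlane P L]
variable [DecidableEq P] [Fintype L] [Fintype P]

lemma rk_eq (X : Finset P) (ℓ : L) [DecidablePred (fun p : P => p ∈ ℓ)] :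
    rk X ℓ = (X.filter (fun p => p ∈ ℓ)).card := by
  rw [rk]
  congr

lemma card_line (ℓ : L) [DecidablePred (fun R : P => R ∈ ℓ)] :
    ((Finset.univ : Finset P).filter (fun R => R ∈ ℓ)).card = order P L + 1 := by
  classical
  rw [← pointCount_eq P ℓ, pointCount, Nat.card_eq_fintype_card, Fintype.card_subtype]

lemma exists_common {ℓ ℓ' : L} (h : ℓ ≠ ℓ') : ∃ R : P, R ∈ ℓ ∧ R ∈ ℓ' :=
  ⟨HasPoints.mkPoint h, HasPoints.mkPoint_ax h⟩

lemma rk_pos {X : Finset P} {ℓ : L} {R : P} (hR : R ∈ X) (h : R ∈ ℓ) : 1 ≤ rk X ℓ := by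
  classical
  rw [rk_eq]
  exact Finset.card_pos.mpr ⟨R, Finset.mem_filter.mpr ⟨hR, h⟩⟩

lemma rk_le_of_notMem {X : Finset P} {ℓ : L} {R : P} (hR : R ∉ X) (h : R ∈ ℓ) :
    rk X ℓ ≤ order P L := by
  classical
  have h1 : X.filter (fun p => p ∈ ℓ) ⊆
      ((Finset.univ : Finset P).filter (fun R => R ∈ ℓ)).erase R := by
    intro s hs
    obtain ⟨hs1, hs2⟩ := Finset.mem_filter.mp hs
    refine Finset.mem_erase.mpr ⟨?_, Finset.mem_filter.mpr ⟨Finset.mem_univ _, hs2⟩⟩
    rintro rfl
    exact hR hs1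
  have h2 := Finset.card_le_card h1
  rw [Finset.card_erase_of_mem (Finset.mem_filter.mpr ⟨Finset.mem_univ _, h⟩), card_line] at h2
  rw [rk_eq]
  omega

lemma rk_le (X : Finset P) (ℓ : L) : rk X ℓ ≤ order P L + 1 := by
  classical
  rw [rk_eq, ← card_line (P := P) ℓ]
  exact Finset.card_le_card (Finset.filter_subset_filter _ (Finset.subset_univ _))

/-- few external lines if there is a long line -/
theorem tcount_zero_of_long {S : Finset P} {ℓ : L} (hℓ : order P L ≤ rk S ℓ)
    (hS : 3 * order P L + 1 ≤ S.card) (hq : 3 ≤ order P L) :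
    tcount L S 0 + 2 ≤ order P L := by
  classical
  set q := order P L with hqdef
  by_cases hall : ∀ R : P, R ∈ ℓ → R ∈ S
  · have h1 : tcount L S 0 = 0 := by
      rw [tcount, Finset.card_eq_zero, Finset.filter_eq_empty_iff]
      intro ℓ' _ h0
      by_cases h : ℓ = ℓ'
      · subst h
        omega
      · obtain ⟨R, hR1, hR2⟩ := exists_common (P := P) h
        have := rk_pos (hall R hR1) hR2
        omega
    omega
  · push Not at hall
    obtain ⟨R, hRℓ, hRS⟩ := hall
    have h1 : S.filter (fun p => p ∈ ℓ) =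
        ((Finset.univ : Finset P).filter (fun R => R ∈ ℓ)).erase R := by
      apply Finset.eq_of_subset_of_card_le
      · intro s hs
        obtain ⟨hs1, hs2⟩ := Finset.mem_filter.mp hs
        refine Finset.mem_erase.mpr ⟨?_, Finset.mem_filter.mpr ⟨Finset.mem_univ _, hs2⟩⟩
        rintro rfl
        exact hRS hs1
      · rw [Finset.card_erase_of_mem (Finset.mem_filter.mpr ⟨Finset.mem_univ _, hRℓ⟩), card_line,
          ← rk_eq]
        omega
    have h2 : ∀ R' : P, R' ∈ ℓ → R' ≠ R → R' ∈ S := by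
      intro R' h3 h4
      have h5 : R' ∈ ((Finset.univ : Finset P).filter (fun R => R ∈ ℓ)).erase R :=
        Finset.mem_erase.mpr ⟨h4, Finset.mem_filter.mpr ⟨Finset.mem_univ _, h3⟩⟩
      rw [← h1] at h5
      exact (Finset.mem_filter.mp h5).1
    have h3 : tcount L S 0 ≤ ((thr L R).filter (fun ℓ' => rk S ℓ' = 0)).card := by
      rw [tcount]
      apply Finset.card_le_card
      intro ℓ' hℓ'
      have h0 := (Finset.mem_filter.mp hℓ').2
      refine Finset.mem_filter.mpr ⟨mem_thr.mpr ?_, h0⟩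
      by_cases h : ℓ = ℓ'
      · subst h
        omega
      · obtain ⟨R', hR1, hR2⟩ := exists_common (P := P) h
        by_cases h4 : R' = R
        · rw [← h4]
          exact hR2
        · have := rk_pos (h2 R' hR1 h4) hR2
          omega
    have h4 := Finset.card_filter_add_card_filter_not (s := thr L R) (fun ℓ' => rk S ℓ' = 0)
    rw [card_thr (P := P) (L := L) R, ← hqdef] at h4
    have h5 : S.card ≤ ((thr L R).filter (fun ℓ' => ¬ rk S ℓ' = 0)).card * q := by
      rw [← sum_rk_thr (L := L) hRS, ← Finset.sum_filter_add_sum_filter_not (thr L R)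
        (fun ℓ' => rk S ℓ' = 0)]
      have h6 : ∑ ℓ' ∈ (thr L R).filter (fun ℓ' => rk S ℓ' = 0), rk S ℓ' = 0 := by
        apply Finset.sum_eq_zero
        intro ℓ' hℓ'
        exact (Finset.mem_filter.mp hℓ').2
      rw [h6, zero_add]
      apply Finset.sum_le_card_nsmul
      intro ℓ' hℓ'
      exact rk_le_of_notMem hRS (mem_thr.mp (Finset.mem_filter.mp hℓ').1)
    have h6 : 4 ≤ ((thr L R).filter (fun ℓ' => ¬ rk S ℓ' = 0)).card := by
      by_contra hcon
      have hcon' := not_le.mp hcon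
      have : ((thr L R).filter (fun ℓ' => ¬ rk S ℓ' = 0)).card * q ≤ 3 * q :=
        Nat.mul_le_mul_right q (by omega)
      omega
    omega

lemma num_a {q j Y U x X τ t k : ℕ} (hq : 3 ≤ q) (h1 : X + τ = 3 * q) (h2 : Y + x = X)
    (h3 : U + x = q + 1) (h4 : x + t = k) (hk : k ≤ q + 1) (hτj : τ ≤ j)
    (hjq : j ≤ q) (hY : Y = q) (h : j * Y ≤ q * U) : False := by
  subst hY
  have h5 : j ≤ U := by
    have : Y * j ≤ Y * U := by rwa [mul_comm Y j]
    exact Nat.le_of_mul_le_mul_left this (by omega)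
  omega

lemma num_b {q j Y U x X τ t k : ℕ} (hq : 3 ≤ q) (h1 : X + τ = 3 * q) (h2 : Y + x = X)
    (h3 : U + x = q + 1) (h4 : x + t = k) (hk1 : q ≤ k) (hk : k ≤ q + 1) (ht : t ≤ τ)
    (hτj : τ ≤ j) (hj1 : 1 ≤ j) (hjq : j ≤ q) (h : j * Y ≤ (q - 1) * U) : False := by
  obtain ⟨p, rfl⟩ : ∃ p, q = p + 1 := ⟨q - 1, by omega⟩
  rw [Nat.add_sub_cancel] at h
  have hx : (x : ℤ) = k - t := by omega
  have hY : (Y : ℤ) = 3 * (p + 1) - τ - k + t := by omega
  have hU : (U : ℤ) = p + 2 - k + t := by omega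
  have h' : (j : ℤ) * Y ≤ p * U := by exact_mod_cast h
  rw [hY, hU] at h'
  have hτj' : (τ : ℤ) ≤ j := by exact_mod_cast hτj
  have ht' : (t : ℤ) ≤ τ := by exact_mod_cast ht
  have hj1' : (1 : ℤ) ≤ j := by exact_mod_cast hj1
  have hjq' : (j : ℤ) ≤ p + 1 := by exact_mod_cast hjq
  have ht0 : (0 : ℤ) ≤ t := Int.natCast_nonneg t
  have hp : (2 : ℤ) ≤ p := by omega
  have hm : (0 : ℤ) ≤ j * (j - τ) := mul_nonneg (by linarith) (by linarith)
  rcases Nat.lt_or_ge j (p + 1) with hj | hj
  · have hj' : (j : ℤ) ≤ p := by omega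
    have hm2 : (0 : ℤ) ≤ (j - t) * (p - j) := mul_nonneg (by linarith) (by linarith)
    rcases Nat.lt_or_ge k (p + 2) with hk2 | hk2
    · have hk3 : (k : ℤ) = p + 1 := by omega
      rw [hk3] at h'
      nlinarith
    · have hk3 : (k : ℤ) = p + 2 := by omega
      rw [hk3] at h'
      nlinarith
  · have hj' : (j : ℤ) = p + 1 := by omega
    rcases Nat.lt_or_ge k (p + 2) with hk2 | hk2
    · have hk3 : (k : ℤ) = p + 1 := by omega
      rw [hk3] at h'
      rw [hj'] at h' hm hτj'
      nlinarith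
    · have hk3 : (k : ℤ) = p + 2 := by omega
      rw [hk3] at h'
      rw [hj'] at h' hm hτj'
      nlinarith

/-- sets with a long line -/
theorem no_long {S T : Finset P} {ω : P} {ℓ : L} {j : ℕ} (hω : ω ∈ S) (hωℓ : ω ∉ ℓ)
    (hℓ : order P L ≤ rk S ℓ) (hS : S.card = 3 * order P L + 1) (hq : 3 ≤ order P L)
    (hT : T ⊆ S.erase ω) (hj1 : 1 ≤ j) (hjq : j ≤ order P L) (hTj : T.card ≤ j)
    (H : ∀ s ∈ S.erase ω \ T,
      j ≤ ((thr L s).filter (fun ℓ => rk (S.erase ω \ T) ℓ = 1)).card) : False := by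
  classical
  set q := order P L with hqdef
  set X := S.erase ω \ T with hX
  set U := (Finset.univ : Finset P).filter (fun R => R ∈ ℓ ∧ R ∉ X) with hU
  set Y := X.filter (fun s => s ∉ ℓ) with hY
  have hXc : X.card + T.card = 3 * q := by
    have := Finset.card_sdiff_add_card_eq_card hT
    rw [Finset.card_erase_of_mem hω] at this
    rw [hX]
    omega
  have hYc : Y.card + rk X ℓ = X.card := by
    have := Finset.card_filter_add_card_filter_not (s := X) (fun s => s ∈ ℓ)
    rw [rk_eq, hY]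
    omega
  have hUc : U.card + rk X ℓ = q + 1 := by
    have h1 := card_line (P := P) ℓ
    have h2 := Finset.card_filter_add_card_filter_not
      (s := (Finset.univ : Finset P).filter (fun R => R ∈ ℓ)) (fun R => R ∈ X)
    rw [Finset.filter_filter, Finset.filter_filter] at h2
    have h3 : (Finset.univ : Finset P).filter (fun R => R ∈ ℓ ∧ R ∈ X) =
        X.filter (fun R => R ∈ ℓ) := by
      ext R
      simp [and_comm]
    rw [h3, ← rk_eq] at h2
    rw [hU]
    omega
  have hrk : rk X ℓ + rk T ℓ = rk S ℓ := by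
    rw [rk_eq, rk_eq, rk_eq, ← Finset.card_union_of_disjoint]
    · congr 1
      ext R
      simp only [Finset.mem_union, Finset.mem_filter, hX, Finset.mem_sdiff, Finset.mem_erase]
      constructor
      · rintro (⟨⟨⟨-, h1⟩, -⟩, h2⟩ | ⟨h1, h2⟩)
        · exact ⟨h1, h2⟩
        · exact ⟨Finset.mem_of_mem_erase (hT h1), h2⟩
      · rintro ⟨h1, h2⟩
        by_cases h3 : R ∈ T
        · exact Or.inr ⟨h3, h2⟩
        · refine Or.inl ⟨⟨⟨?_, h1⟩, h3⟩, h2⟩
          rintro rfl
          exact hωℓ h2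
    · rw [Finset.disjoint_left]
      intro R h1 h2
      exact (Finset.mem_sdiff.mp (Finset.mem_filter.mp h1).1).2 (Finset.mem_filter.mp h2).1
  have hrS : rk S ℓ ≤ q + 1 := rk_le S ℓ
  have hrT : rk T ℓ ≤ T.card := by
    rw [rk_eq]
    exact Finset.card_filter_le _ _
  -- double count
  have hab : ∑ s ∈ Y, (U.filter (fun R => rk X (ln L s R) = 1)).card =
      ∑ R ∈ U, (Y.filter (fun s => rk X (ln L s R) = 1)).card :=
    Finset.sum_card_bipartiteAbove_eq_sum_card_bipartiteBelow (fun s R => rk X (ln L s R) = 1)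
  have ha : ∀ s ∈ Y, j ≤ (U.filter (fun R => rk X (ln L s R) = 1)).card := by
    intro s hs
    obtain ⟨hsX, hsℓ⟩ := Finset.mem_filter.mp hs
    refine (H s hsX).trans ?_
    have h1 : (thr L s).filter (fun ℓ => rk X ℓ = 1) ⊆
        (U.filter (fun R => rk X (ln L s R) = 1)).image (fun R => ln L s R) := by
      intro ℓ' hℓ'
      obtain ⟨h2, h3⟩ := Finset.mem_filter.mp hℓ'
      have h2' := mem_thr.mp h2
      have h4 : ℓ ≠ ℓ' := by
        rintro rfl
        exact hsℓ h2'
      obtain ⟨R, hR1, hR2⟩ := exists_common (P := P) h4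
      have h5 : s ≠ R := by
        rintro rfl
        exact hsℓ hR1
      have h6 : ℓ' = ln L s R := eq_ln h5 h2' hR2
      have h7 : R ∉ X := by
        intro h8
        have h9 : 1 < (X.filter (fun p => p ∈ ℓ')).card :=
          Finset.one_lt_card.mpr ⟨s, Finset.mem_filter.mpr ⟨hsX, h2'⟩, R,
            Finset.mem_filter.mpr ⟨h8, hR2⟩, h5⟩
        rw [← rk_eq] at h9
        omega
      refine Finset.mem_image.mpr ⟨R, Finset.mem_filter.mpr ⟨?_, ?_⟩, h6.symm⟩
      · exact Finset.mem_filter.mpr ⟨Finset.mem_univ _, hR1, h7⟩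
      · rw [← h6]
        exact h3
    exact (Finset.card_le_card h1).trans Finset.card_image_le
  have hYU : ∀ s ∈ Y, ∀ R ∈ U, s ≠ R := by
    rintro s hs R hR rfl
    exact (Finset.mem_filter.mp hs).2 (Finset.mem_filter.mp hR).2.1
  have hinj : ∀ R ∈ U, Set.InjOn (fun s => ln L R s)
      (Y.filter (fun s => rk X (ln L s R) = 1) : Finset P) := by
    intro R hR s hs s' hs' heq
    obtain ⟨h1, h2⟩ := Finset.mem_filter.mp (Finset.mem_coe.mp hs)
    obtain ⟨h3, h4⟩ := Finset.mem_filter.mp (Finset.mem_coe.mp hs')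
    by_contra hne
    have h5 := hYU s h1 R hR
    have h6 := hYU s' h3 R hR
    have h7 : s' ∈ ln L s R := by
      have h8 : ln L R s = ln L s R := eq_ln h5 (right_mem_ln h5.symm) (left_mem_ln h5.symm)
      rw [← h8]
      simp only at heq
      rw [heq]
      exact right_mem_ln h6.symm
    have h9 : 1 < (X.filter (fun p => p ∈ ln L s R)).card :=
      Finset.one_lt_card.mpr ⟨s, Finset.mem_filter.mpr ⟨(Finset.mem_filter.mp h1).1,
        left_mem_ln h5⟩, s', Finset.mem_filter.mpr ⟨(Finset.mem_filter.mp h3).1, h7⟩, hne⟩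
    rw [← rk_eq] at h9
    omega
  have hsub : ∀ R ∈ U, (Y.filter (fun s => rk X (ln L s R) = 1)).image (fun s => ln L R s) ⊆
      ((thr L R).erase ℓ).filter (fun ℓ' => rk X ℓ' = 1) := by
    intro R hR ℓ' hℓ'
    obtain ⟨s, hs, rfl⟩ := Finset.mem_image.mp hℓ'
    obtain ⟨h1, h2⟩ := Finset.mem_filter.mp hs
    have h5 := hYU s h1 R hR
    refine Finset.mem_filter.mpr ⟨Finset.mem_erase.mpr ⟨?_, mem_thr.mpr (left_mem_ln h5.symm)⟩, ?_⟩
    · intro h6
      apply (Finset.mem_filter.mp h1).2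
      rw [← h6]
      exact right_mem_ln h5.symm
    · have h8 : ln L R s = ln L s R := eq_ln h5 (right_mem_ln h5.symm) (left_mem_ln h5.symm)
      rw [h8]
      exact h2
  have hthr : ∀ R ∈ U, ((thr L R).erase ℓ).card = q := by
    intro R hR
    rw [Finset.card_erase_of_mem (mem_thr.mpr (Finset.mem_filter.mp hR).2.1),
      card_thr (P := P) (L := L) R]
    omega
  have hb : ∀ R ∈ U, (Y.filter (fun s => rk X (ln L s R) = 1)).card ≤ q := by
    intro R hR
    rw [← Finset.card_image_of_injOn (hinj R hR), ← hthr R hR]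
    exact (Finset.card_le_card (hsub R hR)).trans (Finset.card_filter_le _ _)
  have hb' : ∀ R ∈ U, (Y.filter (fun s => rk X (ln L s R) = 1)).card = q → Y.card = q := by
    intro R hR hRq
    have h1 : ((thr L R).erase ℓ).filter (fun ℓ' => rk X ℓ' = 1) = (thr L R).erase ℓ := by
      apply Finset.eq_of_subset_of_card_le (Finset.filter_subset _ _)
      rw [hthr R hR, ← hRq, ← Finset.card_image_of_injOn (hinj R hR)]
      exact Finset.card_le_card (hsub R hR)
    have h2 : ∀ ℓ' ∈ (thr L R).erase ℓ, rk X ℓ' = 1 := by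
      intro ℓ' hℓ'
      rw [← h1] at hℓ'
      exact (Finset.mem_filter.mp hℓ').2
    have h3 := sum_rk_thr (L := L) (Finset.mem_filter.mp hR).2.2
    rw [← Finset.add_sum_erase _ _ (mem_thr.mpr (Finset.mem_filter.mp hR).2.1),
      Finset.sum_congr rfl h2, Finset.sum_const, hthr R hR, smul_eq_mul, mul_one] at h3
    omega
  have hja : j * Y.card ≤ ∑ s ∈ Y, (U.filter (fun R => rk X (ln L s R) = 1)).card := by
    rw [mul_comm, ← smul_eq_mul]
    exact Finset.card_nsmul_le_sum _ _ _ ha
  rw [hab] at hja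
  by_cases hex : ∃ R ∈ U, (Y.filter (fun s => rk X (ln L s R) = 1)).card = q
  · obtain ⟨R, hR, hRq⟩ := hex
    have h1 : ∑ R ∈ U, (Y.filter (fun s => rk X (ln L s R) = 1)).card ≤ q * U.card := by
      rw [mul_comm, ← smul_eq_mul]
      exact Finset.sum_le_card_nsmul _ _ _ hb
    exact num_a hq hXc hYc hUc hrk hrS hTj hjq (hb' R hR hRq) (hja.trans h1)
  · push Not at hex
    have h1 : ∑ R ∈ U, (Y.filter (fun s => rk X (ln L s R) = 1)).card ≤ (q - 1) * U.card := by
      rw [mul_comm, ← smul_eq_mul]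
      apply Finset.sum_le_card_nsmul
      intro R hR
      have h2 := hb R hR
      have h3 := hex R hR
      omega
    exact num_b hq hXc hYc hUc hrk hℓ hrS hrT hTj hj1 hjq (hja.trans h1)

/-- sets with many secants -/
theorem no_many {S T : Finset P} {ω : P} {j : ℕ} (hω : ω ∈ S)
    (ht : tcount L S 1 + 2 ≤ order P L) (hS : 3 * order P L + 1 ≤ S.card) (hq : 3 ≤ order P L)
    (hT : T ⊆ S.erase ω) (hj1 : 1 ≤ j) (hjq : j ≤ order P L) (hTj : T.card ≤ j)
    (H : ∀ s ∈ S.erase ω \ T,
      j ≤ ((thr L s).filter (fun ℓ => rk (S.erase ω \ T) ℓ = 1)).card) : False := by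
  classical
  set q := order P L with hqdef
  set X := S.erase ω \ T with hX
  have hXc : X.card + T.card + 1 = S.card := by
    have := Finset.card_sdiff_add_card_eq_card hT
    rw [Finset.card_erase_of_mem hω] at this
    have h0 : 0 < S.card := Finset.card_pos.mpr ⟨ω, hω⟩
    rw [hX]
    omega
  have h1 := tcount_one_ge (L := L) X j H
  have hy : ∀ R ∈ insert ω T, ((thr L R).filter (fun ℓ' => rk X ℓ' = 1)).card ≤ q := by
    intro R hR
    have hRX : R ∉ X := by
      intro h2
      rw [hX, Finset.mem_sdiff, Finset.mem_erase] at h2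
      rcases Finset.mem_insert.mp hR with h3 | h3
      · exact h2.1.1 h3
      · exact h2.2 h3
    by_contra hcon
    push Not at hcon
    have h3 : (thr L R).filter (fun ℓ' => rk X ℓ' = 1) = thr L R := by
      apply Finset.eq_of_subset_of_card_le (Finset.filter_subset _ _)
      rw [card_thr (P := P) (L := L) R]
      omega
    have h4 : ∀ ℓ' ∈ thr L R, rk X ℓ' = 1 := by
      intro ℓ' hℓ'
      rw [← h3] at hℓ'
      exact (Finset.mem_filter.mp hℓ').2
    have h5 := sum_rk_thr (L := L) hRX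
    rw [Finset.sum_congr rfl h4, Finset.sum_const, card_thr (P := P) (L := L) R, smul_eq_mul,
      mul_one] at h5
    omega
  have h2 : tcount L X 1 ≤ tcount L S 1 + (insert ω T).card * q := by
    have h3 : (Finset.univ.filter (fun ℓ : L => rk X ℓ = 1)) ⊆
        (Finset.univ.filter (fun ℓ : L => rk S ℓ = 1)) ∪
          (insert ω T).biUnion (fun R => (thr L R).filter (fun ℓ' => rk X ℓ' = 1)) := by
      intro ℓ' hℓ'
      have h4 := (Finset.mem_filter.mp hℓ').2
      rw [Finset.mem_union]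
      by_cases h5 : ∃ R ∈ insert ω T, R ∈ ℓ'
      · right
        obtain ⟨R, hR, hRℓ⟩ := h5
        exact Finset.mem_biUnion.mpr ⟨R, hR, Finset.mem_filter.mpr ⟨mem_thr.mpr hRℓ, h4⟩⟩
      · left
        push Not at h5
        refine Finset.mem_filter.mpr ⟨Finset.mem_univ _, ?_⟩
        rw [← h4, rk_eq, rk_eq]
        congr 1
        ext R
        simp only [Finset.mem_filter, hX, Finset.mem_sdiff, Finset.mem_erase]
        constructor
        · rintro ⟨h6, h7⟩
          refine ⟨⟨⟨?_, h6⟩, ?_⟩, h7⟩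
          · rintro rfl
            exact h5 R (Finset.mem_insert_self _ _) h7
          · intro h8
            exact h5 R (Finset.mem_insert_of_mem h8) h7
        · rintro ⟨⟨⟨-, h6⟩, -⟩, h7⟩
          exact ⟨h6, h7⟩
    rw [tcount, tcount]
    refine (Finset.card_le_card h3).trans ((Finset.card_union_le _ _).trans ?_)
    apply Nat.add_le_add_left
    refine Finset.card_biUnion_le.trans ?_
    rw [← smul_eq_mul]
    exact Finset.sum_le_card_nsmul _ _ _ hy
  have h3 : (insert ω T).card ≤ T.card + 1 := Finset.card_insert_le _ _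
  have h4 : (insert ω T).card * q ≤ (T.card + 1) * q := Nat.mul_le_mul_right q h3
  have h5 : j * X.card ≤ tcount L S 1 + (T.card + 1) * q := h1.trans (h2.trans (by omega))
  have h6 : (3 : ℤ) * q ≤ X.card + T.card := by omega
  have h7 : (j : ℤ) * X.card ≤ tcount L S 1 + (T.card + 1) * q := by exact_mod_cast h5
  have h8 : (T.card : ℤ) ≤ j := by exact_mod_cast hTj
  have h9 : (1 : ℤ) ≤ j := by exact_mod_cast hj1
  have h10 : (j : ℤ) ≤ q := by exact_mod_cast hjq
  have h11 : (tcount L S 1 : ℤ) + 2 ≤ q := by exact_mod_cast ht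
  have hm1 : (0 : ℤ) ≤ j * (X.card + T.card - 3 * q) := mul_nonneg (by linarith) (by linarith)
  have hm2 : (0 : ℤ) ≤ (j + q) * (j - T.card) := mul_nonneg (by linarith) (by linarith)
  have hm3 : (0 : ℤ) ≤ (j - 1) * (2 * q - 1 - j) := mul_nonneg (by linarith) (by linarith)
  nlinarith

end Pool.Agent.Helper85_Gamma
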