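import Mathlib
import Pool.Agent.Helper61_Gamma.Ex

/-!
The `3 p` points of three concurrent lines of `PG(2,p)` without the centre, and their representation
by a triangle with the `p`-th roots of unity on its sides.
-/

namespace Pool.Agent.Helper85_Gamma
open Pool.Agent.Helper61_Gamma Set

universe u v

/-- three concurrent lines without the centre, over `F_p` -/
def netA (p : ℕ) [Fact p.Prime] : Fin 3 × ZMod p → Fin 3 → ZMod p :=
  fun s => ![![1, 0, s.2], ![1, 1, s.2], ![0, 1, s.2]] s.1

/-- a triangle with the `p`-th roots of unity on its sides -/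
def netB {p : ℕ} {K : Type v} [Field K] (e : ZMod p → K) :
    Fin 3 × ZMod p → Fin 3 → K :=
  fun s => ![![1, -e s.2, 0], ![-e (-s.2), 0, 1], ![0, 1, -e s.2]] s.1

lemma net_key {p : ℕ} [Fact p.Prime] {K : Type v} [Field K] (e : ZMod p → K)
    (hadd : ∀ x y, e (x + y) = e x * e y) (hinj : Function.Injective e) (h0 : e 0 = 1)
    (s t r : Fin 3 × ZMod p) :
    Dt (netA p s) (netA p t) (netA p r) = 0 ↔ Dt (netB e s) (netB e t) (netB e r) = 0 := by
  have hne : ∀ x, e x ≠ 0 := by
    intro x hx
    have h1 := hadd x (-x)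
    rw [add_neg_cancel, h0, hx, zero_mul] at h1
    exact one_ne_zero h1
  have k1 : ∀ x y, -e x + e y = 0 ↔ x = y := fun x y => by
    constructor
    · intro h
      apply hinj
      linear_combination -h
    · rintro rfl
      ring
  have k2 : ∀ x y, e x - e y = 0 ↔ x = y := fun x y => by
    rw [sub_eq_zero]
    exact hinj.eq_iff
  have k3 : ∀ x y, e x + -e y = 0 ↔ x = y := fun x y => by
    rw [← sub_eq_add_neg]
    exact k2 x y
  have k4 : ∀ x, -1 + e x = 0 ↔ x = 0 := fun x => by
    have := k1 0 x
    rw [h0] at this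
    rw [this]
    exact eq_comm
  have k5 : ∀ x, 1 - e x = 0 ↔ x = 0 := fun x => by
    have := k2 0 x
    rw [h0] at this
    rw [this]
    exact eq_comm
  have k6 : ∀ x, 1 + -e x = 0 ↔ x = 0 := fun x => by
    rw [← sub_eq_add_neg]
    exact k5 x
  have k7 : ∀ x, -e x + 1 = 0 ↔ x = 0 := fun x => by
    have := k1 x 0
    rwa [h0] at this
  have k8 : ∀ x, e x + -1 = 0 ↔ x = 0 := fun x => by
    have := k3 x 0
    rwa [h0] at this
  obtain ⟨i, a⟩ := s
  obtain ⟨j, b⟩ := t
  obtain ⟨k, c⟩ := r
  fin_cases i <;> fin_cases j <;> fin_cases k <;> simp [Dt, netA, netB]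
  all_goals simp only [← hadd, hne, false_or, k1, k2, k3, k4, k5, k6, k7, k8]
  all_goals constructor <;> intro h <;>
    first
    | linear_combination h
    | linear_combination (-1 : ZMod p) * h

lemma net_simple {p : ℕ} [hp : Fact p.Prime] (s t : Fin 3 × ZMod p) (hst : s ≠ t) :
    ∃ r, Dt (netA p s) (netA p t) (netA p r) ≠ 0 := by
  obtain ⟨i, a⟩ := s
  obtain ⟨j, b⟩ := t
  by_cases hij : i = j
  · subst hij
    have hab : a ≠ b := fun h => hst (by rw [h])
    have hab' : a - b ≠ 0 := sub_ne_zero.mpr hab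
    have hba' : b - a ≠ 0 := sub_ne_zero.mpr hab.symm
    fin_cases i
    · refine ⟨(1, 0), ?_⟩
      simp only [Dt, netA]
      simp
      intro h
      apply hab'
      linear_combination h
    · refine ⟨(0, 0), ?_⟩
      simp only [Dt, netA]
      simp
      intro h
      apply hab'
      first
      | linear_combination h
      | linear_combination (-1 : ZMod p) * h
    · refine ⟨(0, 0), ?_⟩
      simp only [Dt, netA]
      simp
      intro h
      apply hab'
      first
      | linear_combination h
      | linear_combination (-1 : ZMod p) * h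
  · -- a third point on the first line
    by_contra hcon
    push Not at hcon
    have h1 := hcon (i, a + 1)
    revert h1
    fin_cases i <;> fin_cases j <;> simp [Dt, netA] at hij ⊢
    intro h
    have h2 : (-1 : ZMod p) = 0 := by linear_combination h
    simp at h2

/-- the vectors of the example -/
def exV (p : ℕ) [Fact p.Prime] : ULift.{u} (Fin 3 × ZMod p) → Fin 3 → ZMod p :=
  fun s => netA p s.down

/-- the example -/
noncomputable def exMat (p : ℕ) [Fact p.Prime] : Matroid (ULift.{u} (Fin 3 × ZMod p)) :=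
  vecMatroid (exV p)

theorem exMat_spec (p : ℕ) [hp : Fact p.Prime] :
    IsSimple (exMat.{u} p) ∧ (exMat.{u} p).eRank = 3 ∧
      (exMat.{u} p).E.encard = ((3 * p : ℕ) : ℕ∞) ∧ RepOver (ZMod p) (exMat.{u} p) ∧
      (∃ A ⊆ (exMat.{u} p).E, (exMat.{u} p).eRk A ≤ 2 ∧ (p : ℕ∞) ≤ A.encard) ∧
      ∀ (K : Type v) [Field K] (e : ZMod p → K), (∀ x y, e (x + y) = e x * e y) →
        Function.Injective e → e 0 = 1 → RepOver K (exMat.{u} p) := by
  classical
  have hsimp : ∀ s t : ULift.{u} (Fin 3 × ZMod p), s ≠ t →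
      ∃ r, Dt (exV p s) (exV p t) (exV p r) ≠ 0 := by
    intro s t hst
    obtain ⟨r, hr⟩ := net_simple s.down t.down (fun h => hst (ULift.down_injective h))
    exact ⟨⟨r⟩, hr⟩
  have hv : ∃ s t r : ULift.{u} (Fin 3 × ZMod p), Dt (exV p s) (exV p t) (exV p r) ≠ 0 := by
    obtain ⟨r, hr⟩ := hsimp ⟨(0, 0)⟩ ⟨(1, 0)⟩ (by
      intro h
      have := congrArg (fun x => (ULift.down x).1) h
      simp at this)
    exact ⟨_, _, r, hr⟩
  refine ⟨vec_simple hsimp, vec_rank hv, ?_, vec_rep _, ?_, ?_⟩
  · rw [exMat, vec_E, encard_univ]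
    simp [ENat.card_eq_coe_fintype_card, ZMod.card]
  · refine ⟨{s | s.down.1 = 0}, ?_, ?_, ?_⟩
    · rw [exMat, vec_E]
      exact subset_univ _
    · rw [Matroid.eRk_le_iff]
      intro I hI hind
      by_contra hcon
      push Not at hcon
      have h3 : (3 : ℕ∞) ≤ I.encard := by
        have h4 : (2 : ℕ∞) + 1 ≤ I.encard := Order.add_one_le_of_lt hcon
        have h5 : (2 : ℕ∞) + 1 = 3 := by norm_num
        rwa [h5] at h4
      obtain ⟨J, hJI, hJ⟩ := exists_subset_encard_eq h3
      obtain ⟨x, y, z, hxy, hxz, hyz, rfl⟩ := encard_eq_three.mp hJ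
      have h6 : LinearIndepOn (ZMod p) (exV.{u} p) {x, y, z} :=
        (vec_indep (exV.{u} p) _).mp (hind.subset hJI)
      rw [linearIndepOn_iff_Dt _ hxy hxz hyz] at h6
      apply h6
      have hx : x.down.1 = 0 := hI (hJI (by simp))
      have hy : y.down.1 = 0 := hI (hJI (by simp))
      have hz : z.down.1 = 0 := hI (hJI (by simp))
      rw [Dt, exV, exV, exV, netA, netA, netA]
      simp only [hx, hy, hz]
      simp
    · have h1 : ({s | s.down.1 = 0} : Set (ULift.{u} (Fin 3 × ZMod p))) =
          range (fun a : ZMod p => (⟨(0, a)⟩ : ULift.{u} (Fin 3 × ZMod p))) := by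
        ext s
        constructor
        · intro h
          refine ⟨s.down.2, ?_⟩
          apply ULift.down_injective
          exact Prod.ext h.symm rfl
        · rintro ⟨a, rfl⟩
          rfl
      rw [h1]
      have h2 : Function.Injective (fun a : ZMod p => (⟨(0, a)⟩ : ULift.{u} (Fin 3 × ZMod p))) := by
        intro a b hab
        have := congrArg (fun x => (ULift.down x).2) hab
        exact this
      rw [← image_univ, h2.injOn.encard_image, encard_univ]
      simp [ENat.card_eq_coe_fintype_card, ZMod.card]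
  · intro K _ e hadd hinj h0
    apply vec_transfer (v' := fun s => netB e s.down) _ hv
    intro s t r
    exact net_key e hadd hinj h0 _ _ _

end Pool.Agent.Helper85_Gamma
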