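import Mathlib
import Pool.Agent.Helper61_Gamma.Abs

/-!
Pointwise form of the tangent theorem, and two classes of point sets to which it applies: sets with
a long line and sets with many lines.
-/

open Configuration Configuration.ProjectivePlane

namespace Pool.Agent.Helper85_Gamma

open Pool.Agent.Helper61_Gamma

variable {P L : Type*} [Membership P L] [ProjectivePlane P L]
variable {K : Type*} [Field K] [DecidableEq P] [Fintype L] [Fintype P]

/-- **Existence of many tangents, pointwise.** -/
theorem tangents_pt {S : Finset P} {ω : P} {m k : P → K} (hC : Coord L S ω m k)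
    (hq : ((order P L : ℕ) : K) ≠ 0) (h1 : 3 * order P L + 1 ≤ S.card)
    (h2 : tcount L S 0 + 2 * order P L + 3 ≤ S.card) :
    ∃ (T : Finset P) (j : ℕ), T ⊆ S.erase ω ∧ 1 ≤ j ∧ j ≤ order P L ∧ T.card ≤ j ∧
      ∀ s ∈ S.erase ω \ T,
        j ≤ ((thr L s).filter (fun ℓ => rk (S.erase ω \ T) ℓ = 1)).card := by
  classical
  set q := order P L with hqdef
  set N := (S.erase ω).card with hN
  have hNS : N + 1 = S.card := by
    rw [hN, Finset.card_erase_of_mem hC.mem]
    have : 0 < S.card := Finset.card_pos.mpr ⟨ω, hC.mem⟩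
    omega
  have hq1 : 1 ≤ q := by
    rcases Nat.eq_zero_or_pos q with h | h
    · rw [h] at hq
      simp at hq
    · exact h
  have hR := R2_eq (L := L) S
  have hins : insert ω (S.erase ω) = S := Finset.insert_erase hC.mem
  rw [← hNS] at hR
  -- existence
  have hlow1 := hC.finrank_lower (N - q - 1) (S.erase ω) (Finset.Subset.refl _)
  rw [hins, ← hN, ] at hlow1
  have e1 : N - q - 1 + 1 = N - q := by omega
  have e2 : N - q - 1 + 2 = N - q + 1 := by omega
  rw [e1, e2, sum_range_trunc N (N - q) (by omega)] at hlow1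
  have e3 : N - (N - q) = q := by omega
  rw [e3] at hlow1
  have hpos : 0 < Module.finrank K (VF (S.erase ω) m k (N - q - 1)) := by
    rw [Nat.pos_iff_ne_zero]
    intro h0
    rw [h0] at hlow1
    obtain ⟨u, hu⟩ : ∃ u, N = 3 * q + u := Nat.exists_eq_add_of_le (by omega)
    obtain ⟨q', hq'⟩ : ∃ q', q = q' + 1 := ⟨q - 1, by omega⟩
    have e4 : N - q = 2 * q + u := by omega
    have e5 : q - 1 = q' := by omega
    rw [e4, e5] at hlow1
    zify at hlow1
    have hN' : (N : ℤ) = 3 * q + u := by exact_mod_cast hu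
    have hq'' : (q : ℤ) = q' + 1 := by exact_mod_cast hq'
    have h2' : (tcount L S 0 : ℤ) + 2 * q + 3 ≤ N + 1 := by
      rw [← hNS] at h2
      exact_mod_cast h2
    push_cast at hR
    rw [← hqdef, hN'] at hR
    rw [hN'] at hlow1 h2'
    have hu0 : (0 : ℤ) ≤ u := Int.natCast_nonneg u
    have hq0 : (0 : ℤ) ≤ q' := Int.natCast_nonneg q'
    rw [hq''] at hR hlow1 h2'
    have hm1 := mul_nonneg hu0 hq0
    have hm2 := mul_nonneg hu0 hu0
    linarith
  obtain ⟨θ₀, hmin, hdeg⟩ := exists_isMin hpos
  -- upper bound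
  set r := mdeg θ₀ with hr
  have hupp := finrank_VF_upper hC.inj hmin (D := 2 * N) (by omega) (by omega)
  have hlow2 := hC.finrank_lower (2 * N) (S.erase ω) (Finset.Subset.refl _)
  rw [hins, ← hN, sum_range_trunc_zero N (2 * N + 1) (by omega)] at hlow2
  rw [← hN, ← hr] at hupp
  have hrq : r ≤ q := by
    by_contra hcon
    push Not at hcon
    obtain ⟨a, ha⟩ : ∃ a, r = q + 1 + a := Nat.exists_eq_add_of_le (by omega)
    obtain ⟨b, hb⟩ : ∃ b, N = q + r + 1 + b := Nat.exists_eq_add_of_le (by omega)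
    have e4 : 2 * N - r = N + q + 1 + b := by omega
    have e5 : 2 * N + r - N = N + r := by omega
    rw [e4, e5] at hupp
    zify at hupp hlow2
    have h2' : (tcount L S 0 : ℤ) + 2 * q + 3 ≤ N + 1 := by
      rw [← hNS] at h2
      exact_mod_cast h2
    push_cast at hR
    rw [← hqdef] at hR
    have hr' : (r : ℤ) = q + 1 + a := by exact_mod_cast ha
    have hN' : (N : ℤ) = q + r + 1 + b := by exact_mod_cast hb
    rw [hr'] at hN'
    rw [hr'] at hupp
    have ha0 : (0 : ℤ) ≤ a := Int.natCast_nonneg a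
    have hb0 : (0 : ℤ) ≤ b := Int.natCast_nonneg b
    have key : ((a : ℤ) + 1) * (b + 1) ≤ tcount L S 0 := by
      rw [hN'] at hupp hlow2 hR
      linarith
    rw [hN'] at h2'
    have hm := mul_nonneg ha0 hb0
    linarith
  obtain ⟨T, j, hT, hj1, hjq, hTj, hkap⟩ :=
    structure_thm hC.inj hmin hq hrq (by omega)
  refine ⟨T, j, hT, hj1, hjq, hTj, ?_⟩
  intro s hs
  have hm := hC.meets_le (L := L) Finset.sdiff_subset hs (hkap s hs).1 (hkap s hs).2
  have hthr := card_thr (P := P) (L := L) s
  have hsplit : (meets L ((S.erase ω \ T).erase s) s).card +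
      ((thr L s).filter (fun ℓ => rk (S.erase ω \ T) ℓ = 1)).card = (thr L s).card := by
    rw [meets, ← Finset.card_filter_add_card_filter_not
      (fun ℓ => 1 ≤ rk ((S.erase ω \ T).erase s) ℓ) (s := thr L s)]
    congr 2
    apply Finset.filter_congr
    intro ℓ hℓ
    have h3 := (rk_insert (Finset.notMem_erase s (S.erase ω \ T)) ℓ).1 (mem_thr.mp hℓ)
    rw [Finset.insert_erase hs] at h3
    omega
  omega

end Pool.Agent.Helper85_Gamma
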