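import Mathlib
import Pool.Agent.Helper61_Gamma.Thm
import Pool.Agent.Helper85_Gamma.Tan
import Pool.Agent.Helper85_Gamma.Comb

/-!
Matroids with a long line or with many lines.
-/

namespace Pool.Agent.Helper85_Gamma

open Configuration Projectivization
open scoped LinearAlgebra.Projectivization
open Pool.Agent.Helper61_Gamma

universe u v w

theorem exists_coord_pt {F : Type w} [Field F] [DecidableEq F] {K : Type v} [Field K]
    {α : Type u} {M : Matroid α} (hs : IsSimple M) (hr : M.eRank = 3) (hF : RepOver F M)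
    (hK : RepOver K M) {E' : Finset α} (hE : (E' : Set α) ⊆ M.E) {ω : α} (hω : ω ∈ E')
    [DecidableEq (ℙ F (Fin 3 → F))] :
    ∃ (pt : α → ℙ F (Fin 3 → F)) (m k : ℙ F (Fin 3 → F) → AlgebraicClosure K),
      Set.InjOn pt M.E ∧
      (∀ s ∈ M.E, ∀ t ∈ M.E, ∀ r ∈ M.E, s ≠ t → s ≠ r → t ≠ r →
        (pt r ∈ ln (ℙ F (Fin 3 → F)) (pt s) (pt t) ↔ ¬ M.Indep {s, t, r})) ∧
      Coord (ℙ F (Fin 3 → F)) (E'.image pt) (pt ω) m k := by
  classical
  have hωE : ω ∈ M.E := hE hω
  have hsing : ∀ e ∈ M.E, M.Indep {e} := by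
    intro e he
    have := hs e he e he
    rwa [Set.pair_eq_singleton] at this
  obtain ⟨a, haω, ha⟩ := exists_coords hF hr (hsing ω hωE)
  obtain ⟨c, hcω, hc⟩ := exists_coords hK hr (hsing ω hωE)
  have ha0 : ∀ e ∈ M.E, a e ≠ 0 := by
    intro e he
    have h1 := (ha {e} (Set.singleton_subset_iff.mpr he)).mp (hsing e he)
    exact (linearIndepOn_singleton_iff F).mp h1
  have hsub : ∀ s ∈ M.E, ∀ t ∈ M.E, ∀ r ∈ M.E, ({s, t, r} : Set α) ⊆ M.E := by
    intro s hs t ht r hr x hx
    simp only [Set.mem_insert_iff, Set.mem_singleton_iff] at hx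
    rcases hx with rfl | rfl | rfl <;> assumption
  have hindA : ∀ s ∈ M.E, ∀ t ∈ M.E, ∀ r ∈ M.E, s ≠ t → s ≠ r → t ≠ r →
      (M.Indep {s, t, r} ↔ Dt (a s) (a t) (a r) ≠ 0) := by
    intro s hs t ht r hr h1 h2 h3
    rw [ha _ (hsub s hs t ht r hr), linearIndepOn_iff_Dt a h1 h2 h3]
  let C : α → Fin 3 → AlgebraicClosure K := fun e i => algebraMap K (AlgebraicClosure K) (c e i)
  have hDtC : ∀ s t r, Dt (C s) (C t) (C r) =
      algebraMap K (AlgebraicClosure K) (Dt (c s) (c t) (c r)) := by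
    intro s t r
    simp only [Dt, C, map_add, map_sub, map_mul]
  have hindC : ∀ s ∈ M.E, ∀ t ∈ M.E, ∀ r ∈ M.E, s ≠ t → s ≠ r → t ≠ r →
      (M.Indep {s, t, r} ↔ Dt (C s) (C t) (C r) ≠ 0) := by
    intro s hs t ht r hr h1 h2 h3
    rw [hc _ (hsub s hs t ht r hr), linearIndepOn_iff_Dt c h1 h2 h3, hDtC, Ne, Ne,
      map_eq_zero_iff _ (algebraMap K (AlgebraicClosure K)).injective]
  have htriple : ∀ s ∈ M.E, ∀ t ∈ M.E, ∀ r ∈ M.E, s ≠ t → s ≠ r → t ≠ r →
      (Dt (a s) (a t) (a r) = 0 ↔ Dt (C s) (C t) (C r) = 0) := by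
    intro s hs t ht r hr h1 h2 h3
    have h4 := (hindA s hs t ht r hr h1 h2 h3).symm.trans (hindC s hs t ht r hr h1 h2 h3)
    tauto
  have hCω : C ω = ![0, 0, 1] := by
    funext i
    simp only [C, hcω]
    fin_cases i <;> simp
  -- a good parameter
  obtain ⟨l, hl⟩ := Infinite.exists_notMem_finset (E'.image (fun e => -C e 0 / C e 1))
  have hd : ∀ e ∈ E', e ≠ ω → C e 0 + l * C e 1 ≠ 0 := by
    intro e he hne h0
    by_cases h1 : C e 1 = 0
    · rw [h1, mul_zero, add_zero] at h0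
      obtain ⟨r, hrE, h2, h3, h4⟩ := third hs hr (hE he) hωE hne
      have h5 := (hindC e (hE he) ω hωE r hrE hne h2 h3).mp h4
      apply h5
      rw [Dt, h0, h1, hCω]
      simp
    · apply hl
      rw [Finset.mem_image]
      refine ⟨e, he, ?_⟩
      rw [div_eq_iff h1]
      linear_combination -h0
  -- points
  let pt : α → ℙ F (Fin 3 → F) := fun e =>
    if h : a e ≠ 0 then mk F (a e) h else mk F (a ω) (ha0 ω hωE)
  have hpt : ∀ e (he : e ∈ M.E), pt e = mk F (a e) (ha0 e he) := by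
    intro e he
    simp only [pt]
    rw [dif_pos (ha0 e he)]
  have hinj : Set.InjOn pt M.E := by
    intro s hsE t htE hst
    by_contra hne
    rw [hpt s hsE, hpt t htE, mk_eq_mk_iff'] at hst
    obtain ⟨x, hx⟩ := hst
    obtain ⟨r, hrE, h2, h3, h4⟩ := third hs hr hsE htE hne
    have h5 := (hindA s hsE t htE r hrE hne h2 h3).mp h4
    apply h5
    rw [← hx, Dt]
    simp only [Pi.smul_apply, smul_eq_mul]
    ring
  have hinjE : Set.InjOn pt (E' : Set α) := hinj.mono hE
  have : Nonempty α := ⟨ω⟩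
  let g := Function.invFunOn pt (E' : Set α)
  have hg : ∀ e ∈ E', g (pt e) = e := fun e he => hinjE.leftInvOn_invFunOn he
  let d : α → AlgebraicClosure K := fun e => C e 0 + l * C e 1
  refine ⟨pt, fun p => -C (g p) 1 / d (g p), fun p => -C (g p) 2 / d (g p), hinj, ?_, ?_⟩
  · intro s hsE t htE r hrE hst hsr htr
    have hne : mk F (a s) (ha0 s hsE) ≠ mk F (a t) (ha0 t htE) := by
      rw [← hpt s hsE, ← hpt t htE]
      exact fun h => hst (hinj hsE htE h)
    rw [hpt s hsE, hpt t htE, hpt r hrE, mem_ln_mk _ _ _ hne, hindA s hsE t htE r hrE hst hsr htr,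
      not_not]
  have hcases : ∀ s ∈ (E'.image pt).erase (pt ω), ∃ e ∈ E', e ≠ ω ∧ pt e = s := by
    intro s hs
    obtain ⟨h1, h2⟩ := Finset.mem_erase.mp hs
    obtain ⟨e, he, rfl⟩ := Finset.mem_image.mp h2
    exact ⟨e, he, fun h => h1 (by rw [h]), rfl⟩
  constructor
  · exact Finset.mem_image_of_mem _ hω
  · intro s hsS t htS hst
    obtain ⟨e, he, heω, rfl⟩ := hcases s hsS
    obtain ⟨f, hf, hfω, rfl⟩ := hcases t htS
    rw [hg e he, hg f hf]
    have hef : e ≠ f := fun h => hst (by rw [h])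
    by_contra hcon
    push Not at hcon
    obtain ⟨h1, h2⟩ := hcon
    have hde := hd e he heω
    have hdf := hd f hf hfω
    obtain ⟨r, hrE, h3, h4, h5⟩ := third hs hr (hE he) (hE hf) hef
    have h6 := (hindC e (hE he) f (hE hf) r hrE hef h3 h4).mp h5
    rw [div_eq_div_iff hde hdf] at h1 h2
    apply h6
    have h7 : C e 1 * d f = C f 1 * d e := by linear_combination -h1
    have h8 : C e 2 * d f = C f 2 * d e := by linear_combination -h2
    have h9 : C e 0 * d f = C f 0 * d e := by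
      simp only [d] at h7 ⊢
      linear_combination (-l) * h7
    have h10 : d f * Dt (C e) (C f) (C r) = 0 := by
      rw [Dt]
      linear_combination (C f 1 * C r 2 - C f 2 * C r 1) * h9 -
        (C f 0 * C r 2 - C f 2 * C r 0) * h7 + (C f 0 * C r 1 - C f 1 * C r 0) * h8
    exact (mul_eq_zero.mp h10).resolve_left hdf
  · intro s hsS t htS hst
    obtain ⟨e, he, heω, rfl⟩ := hcases s hsS
    obtain ⟨f, hf, hfω, rfl⟩ := hcases t htS
    rw [hg e he, hg f hf]
    have hef : e ≠ f := fun h => hst (by rw [h])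
    have hde := hd e he heω
    have hdf := hd f hf hfω
    rw [hpt e (hE he), hpt f (hE hf)] at hst
    rw [hpt e (hE he), hpt f (hE hf), hpt ω hωE, mem_ln_mk _ _ _ hst,
      htriple e (hE he) f (hE hf) ω hωE hef heω hfω, Dt, hCω, div_eq_div_iff hde hdf]
    simp only [Matrix.cons_val_zero, Matrix.cons_val_one, Matrix.cons_val]
    constructor
    · intro h1
      linear_combination h1
    · intro h1
      linear_combination h1
  · intro s hsS t htS u huS hst hsu htu
    obtain ⟨e, he, heω, rfl⟩ := hcases s hsS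
    obtain ⟨f, hf, hfω, rfl⟩ := hcases t htS
    obtain ⟨r, hr', hrω, rfl⟩ := hcases u huS
    rw [hg e he, hg f hf, hg r hr']
    have hef : e ≠ f := fun h => hst (by rw [h])
    have her : e ≠ r := fun h => hsu (by rw [h])
    have hfr : f ≠ r := fun h => htu (by rw [h])
    have hde := hd e he heω
    have hdf := hd f hf hfω
    have hdr := hd r hr' hrω
    rw [hpt e (hE he), hpt f (hE hf)] at hst
    rw [hpt e (hE he), hpt f (hE hf), hpt r (hE hr'), mem_ln_mk _ _ _ hst,
      htriple e (hE he) f (hE hf) r (hE hr') hef her hfr,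
      Dt_scale (l := l) (dA := d e) (dB := d f) (dC := d r) rfl rfl rfl hde hdf hdr,
      mul_eq_zero, or_iff_right (mul_ne_zero (mul_ne_zero hde hdf) hdr), sub_eq_zero]


/-- `M` has a line (a set of rank at most two) with at least `p` points. -/
def LongLine {α : Type u} (p : ℕ) (M : Matroid α) : Prop :=
  ∃ A ⊆ M.E, M.eRk A ≤ 2 ∧ (p : ℕ∞) ≤ A.encard

/-- `M` has at least `p ^ 2 + 3` lines (flats of rank two). -/
def ManyLines {α : Type u} (p : ℕ) (M : Matroid α) : Prop :=
  ((p ^ 2 + 3 : ℕ) : ℕ∞) ≤ {A : Set α | M.IsFlat A ∧ M.eRk A = 2}.encard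

/-- The property in the definition of `γ(p)`, restricted to matroids with a line with at least `p`
points or with at least `p ^ 2 + 3` lines. -/
def ForcesRich (p : ℕ) [Fact p.Prime] (N : ℕ) : Prop :=
  ∀ (α : Type u) (M : Matroid α), IsSimple M → M.eRank = 3 → RepOver (ZMod p) M →
    (N : ℕ∞) ≤ M.E.encard → (LongLine p M ∨ ManyLines p M) →
    ∀ (K : Type v) [Field K], RepOver K M → CharP K p

section

variable {p : ℕ} [hp : Fact p.Prime]

lemma order_ZMod [Fintype (ℙ (ZMod p) (Fin 3 → ZMod p))] :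
    Configuration.ProjectivePlane.order (ℙ (ZMod p) (Fin 3 → ZMod p))
      (ℙ (ZMod p) (Fin 3 → ZMod p)) = p := by
  rw [order_PP, Nat.card_zmod]

lemma char_ne_zero {K : Type v} [Field K] (hch : ¬ CharP K p) :
    ((p : ℕ) : AlgebraicClosure K) ≠ 0 := by
  intro h
  apply hch
  apply (CharP.charP_iff_prime_eq_zero hp.out).mpr
  apply (algebraMap K (AlgebraicClosure K)).injective
  rw [map_natCast, map_zero]
  exact h

/-- long lines -/
theorem charP_of_longLine (h5 : 5 ≤ p) {α : Type u} {M : Matroid α} (hs : IsSimple M)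
    (hr : M.eRank = 3) (hF : RepOver (ZMod p) M)
    (hN : ((3 * p + 1 : ℕ) : ℕ∞) ≤ M.E.encard) (hL : LongLine p M) {K : Type v} [Field K]
    (hK : RepOver K M) : CharP K p := by
  classical
  by_contra hch
  have hq0 := char_ne_zero (p := p) hch
  have : Fintype (ℙ (ZMod p) (Fin 3 → ZMod p)) := Fintype.ofFinite _
  obtain ⟨A, hAE, hA2, hAp⟩ := hL
  obtain ⟨A0, hA0, hA0c⟩ := Set.exists_subset_encard_eq hAp
  have hA0E : A0 ⊆ M.E := hA0.trans hAE
  obtain ⟨E0, hAE0, hE0, hE0c⟩ := Set.exists_superset_subset_encard_eq hA0E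
    (by rw [hA0c]; exact_mod_cast (by omega : p ≤ 3 * p + 1)) hN
  have hfin : E0.Finite := Set.finite_of_encard_eq_coe hE0c
  set E' := hfin.toFinset with hE'
  have hE'c : (E' : Set α) = E0 := hfin.coe_toFinset
  have hE'E : (E' : Set α) ⊆ M.E := by rw [hE'c]; exact hE0
  have hcard : E'.card = 3 * p + 1 := by
    have h1 : ((E'.card : ℕ) : ℕ∞) = ((3 * p + 1 : ℕ) : ℕ∞) := by
      rw [← Set.encard_coe_eq_coe_finsetCard, hE'c, hE0c]
    exact_mod_cast h1
  have hfinA : A0.Finite := hfin.subset hAE0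
  set A' := hfinA.toFinset with hA'
  have hA'c : (A' : Set α) = A0 := hfinA.coe_toFinset
  have hcardA : A'.card = p := by
    have h1 : ((A'.card : ℕ) : ℕ∞) = (p : ℕ∞) := by
      rw [← Set.encard_coe_eq_coe_finsetCard, hA'c, hA0c]
    exact_mod_cast h1
  have hA'E' : A' ⊆ E' := by
    rw [← Finset.coe_subset, hA'c, hE'c]
    exact hAE0
  have hmemE : ∀ e ∈ E', e ∈ M.E := fun e he => hE'E he
  have hmemA : ∀ e ∈ A', e ∈ A := by
    intro e he
    apply hA0
    rw [← hA'c]
    exact he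
  obtain ⟨a, ha, b, hb, hab⟩ := Finset.one_lt_card.mp (by rw [hcardA]; omega : 1 < A'.card)
  have haE := hA'E' ha
  have hbE := hA'E' hb
  -- dependent triples on the line
  have hdep : ∀ e ∈ A', a ≠ e → b ≠ e → ¬ M.Indep {a, b, e} := by
    intro e he hae hbe hind
    have h1 : M.eRk {a, b, e} = 3 := by
      rw [hind.eRk_eq_encard]
      exact Set.encard_eq_three.mpr ⟨a, b, e, hab, hae, hbe, rfl⟩
    have h2 : M.eRk {a, b, e} ≤ M.eRk A := by
      apply M.eRk_mono
      intro x hx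
      simp only [Set.mem_insert_iff, Set.mem_singleton_iff] at hx
      rcases hx with rfl | rfl | rfl
      · exact hmemA _ ha
      · exact hmemA _ hb
      · exact hmemA _ he
    rw [h1] at h2
    have h3 := h2.trans hA2
    norm_num at h3
  -- a point off the line
  obtain ⟨ω, hω, haω, hbω, hind⟩ : ∃ ω ∈ E', a ≠ ω ∧ b ≠ ω ∧ M.Indep {a, b, ω} := by
    by_contra hcon
    push Not at hcon
    obtain ⟨pt, m, k, hinj, hcol, -⟩ := exists_coord_pt hs hr hF hK hE'E haE
    have h1 : E'.image pt ⊆ (Finset.univ : Finset (ℙ (ZMod p) (Fin 3 → ZMod p))).filter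
        (fun R => R ∈ ln (ℙ (ZMod p) (Fin 3 → ZMod p)) (pt a) (pt b)) := by
      intro x hx
      obtain ⟨e, he, rfl⟩ := Finset.mem_image.mp hx
      refine Finset.mem_filter.mpr ⟨Finset.mem_univ _, ?_⟩
      have hne : pt a ≠ pt b := fun h => hab (hinj (hmemE a haE) (hmemE b hbE) h)
      by_cases hae : a = e
      · rw [← hae]
        exact left_mem_ln hne
      · by_cases hbe : b = e
        · rw [← hbe]
          exact right_mem_ln hne
        · exact (hcol a (hmemE a haE) b (hmemE b hbE) e (hmemE e he) hab hae hbe).mpr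
            (hcon e he hae hbe)
    have h2 := Finset.card_le_card h1
    rw [Finset.card_image_of_injOn (hinj.mono hE'E), hcard, card_line, order_ZMod] at h2
    omega
  obtain ⟨pt, m, k, hinj, hcol, hC⟩ := exists_coord_pt hs hr hF hK hE'E hω
  have hne : pt a ≠ pt b := fun h => hab (hinj (hmemE a haE) (hmemE b hbE) h)
  set ℓ := ln (ℙ (ZMod p) (Fin 3 → ZMod p)) (pt a) (pt b) with hℓ
  have hωℓ : pt ω ∉ ℓ := by
    intro h
    exact (hcol a (hmemE a haE) b (hmemE b hbE) ω (hmemE ω hω) hab haω hbω).mp h hind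
  have hSc : (E'.image pt).card = 3 * p + 1 := by
    rw [Finset.card_image_of_injOn (hinj.mono hE'E), hcard]
  have hrk : p ≤ rk (E'.image pt) ℓ := by
    have h1 : A'.image pt ⊆ (E'.image pt).filter (fun R => R ∈ ℓ) := by
      intro x hx
      obtain ⟨e, he, rfl⟩ := Finset.mem_image.mp hx
      refine Finset.mem_filter.mpr ⟨Finset.mem_image_of_mem _ (hA'E' he), ?_⟩
      by_cases hae : a = e
      · rw [← hae]
        exact left_mem_ln hne
      · by_cases hbe : b = e
        · rw [← hbe]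
          exact right_mem_ln hne
        · exact (hcol a (hmemE a haE) b (hmemE b hbE) e (hmemE e (hA'E' he)) hab hae hbe).mpr
            (hdep e he hae hbe)
    have h2 := Finset.card_le_card h1
    rw [Finset.card_image_of_injOn (hinj.mono (fun e he => hmemE e (hA'E' he))), hcardA,
      ← rk_eq] at h2
    exact h2
  have ho := order_ZMod (p := p)
  have ht0 := tcount_zero_of_long (S := E'.image pt) (ℓ := ℓ) (by rw [ho]; exact hrk)
    (by rw [ho, hSc]) (by rw [ho]; omega)
  rw [ho] at ht0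
  obtain ⟨T, j, hT, hj1, hjq, hTj, H⟩ := tangents_pt hC (by rw [ho]; exact hq0)
    (by rw [ho, hSc]) (by rw [ho, hSc]; omega)
  exact no_long hC.mem hωℓ (by rw [ho]; exact hrk) (by rw [ho, hSc]) (by rw [ho]; omega)
    hT hj1 hjq hTj H

/-- a simple rank three matroid representable over `GF(p)` has finitely many points -/
theorem finite_ground {α : Type u} {M : Matroid α} (hs : IsSimple M)
    (hr : M.eRank = 3) (hF : RepOver (ZMod p) M) {K : Type v} [Field K]
    (hK : RepOver K M) : M.E.Finite := by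
  classical
  have : Fintype (ℙ (ZMod p) (Fin 3 → ZMod p)) := Fintype.ofFinite _
  by_contra hinf
  have hinf' : M.E.Infinite := hinf
  obtain ⟨E', hE', hcard⟩ := hinf'.exists_subset_card_eq (p ^ 2 + p + 2)
  obtain ⟨ω, hω⟩ : E'.Nonempty := Finset.card_pos.mp (by omega)
  obtain ⟨pt, m, k, hinj, -, -⟩ := exists_coord_pt hs hr hF hK hE' hω
  have h1 := Finset.card_le_univ (E'.image pt)
  rw [Finset.card_image_of_injOn (hinj.mono hE'), hcard,
    ProjectivePlane.card_points (ℙ (ZMod p) (Fin 3 → ZMod p)) (ℙ (ZMod p) (Fin 3 → ZMod p)),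
    order_ZMod] at h1
  omega

/-- many lines -/
theorem charP_of_manyLines (h5 : 5 ≤ p) {α : Type u} {M : Matroid α} (hs : IsSimple M)
    (hr : M.eRank = 3) (hF : RepOver (ZMod p) M)
    (hN : ((3 * p + 1 : ℕ) : ℕ∞) ≤ M.E.encard) (hL : ManyLines p M) {K : Type v} [Field K]
    (hK : RepOver K M) : CharP K p := by
  classical
  by_contra hch
  have hq0 := char_ne_zero (p := p) hch
  have : Fintype (ℙ (ZMod p) (Fin 3 → ZMod p)) := Fintype.ofFinite _
  have hfin := finite_ground hs hr hF hK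
  set E' := hfin.toFinset with hE'
  have hE'c : (E' : Set α) = M.E := hfin.coe_toFinset
  have hmem : ∀ e, e ∈ E' ↔ e ∈ M.E := fun e => hfin.mem_toFinset
  have hcard : 3 * p + 1 ≤ E'.card := by
    have h1 : ((3 * p + 1 : ℕ) : ℕ∞) ≤ ((E'.card : ℕ) : ℕ∞) := by
      rw [← Set.encard_coe_eq_coe_finsetCard, hE'c]
      exact hN
    exact_mod_cast h1
  obtain ⟨ω, hω⟩ : E'.Nonempty := Finset.card_pos.mp (by omega)
  obtain ⟨pt, m, k, hinj, hcol, hC⟩ := exists_coord_pt hs hr hF hK hE'c.subset hω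
  have hSc : (E'.image pt).card = E'.card :=
    Finset.card_image_of_injOn (hinj.mono hE'c.subset)
  have ho := order_ZMod (p := p)
  set S := E'.image pt with hS
  -- the lines of the matroid inject into the secants
  have hbas : ∀ A : Set α, M.IsFlat A → M.eRk A = 2 →
      ∃ a b, a ≠ b ∧ M.Indep {a, b} ∧ M.closure {a, b} = A := by
    intro A hA h2
    obtain ⟨I, hI⟩ := M.exists_isBasis A hA.subset_ground
    have h3 := hI.encard_eq_eRk
    rw [h2] at h3
    obtain ⟨a, b, hab, rfl⟩ := Set.encard_eq_two.mp h3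
    exact ⟨a, b, hab, hI.indep, by rw [hI.closure_eq_closure, hA.closure]⟩
  let f : Set α → ℙ (ZMod p) (Fin 3 → ZMod p) := fun A =>
    if h : ∃ a b, a ≠ b ∧ M.Indep {a, b} ∧ M.closure {a, b} = A then
      ln (ℙ (ZMod p) (Fin 3 → ZMod p)) (pt h.choose) (pt h.choose_spec.choose) else pt ω
  have hf : ∀ A : Set α, M.IsFlat A → M.eRk A = 2 →
      ∃ a b, a ≠ b ∧ M.Indep {a, b} ∧ M.closure {a, b} = A ∧
        f A = ln (ℙ (ZMod p) (Fin 3 → ZMod p)) (pt a) (pt b) := by
    intro A hA h2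
    have h := hbas A hA h2
    refine ⟨h.choose, h.choose_spec.choose, h.choose_spec.choose_spec.1,
      h.choose_spec.choose_spec.2.1, h.choose_spec.choose_spec.2.2, ?_⟩
    simp only [f]
    rw [dif_pos h]
  have hpne : ∀ a ∈ M.E, ∀ b ∈ M.E, a ≠ b → pt a ≠ pt b := fun a ha b hb hab h =>
    hab (hinj ha hb h)
  have hon : ∀ a ∈ M.E, ∀ b ∈ M.E, a ≠ b → M.Indep {a, b} → ∀ c ∈ M.E,
      pt c ∈ ln (ℙ (ZMod p) (Fin 3 → ZMod p)) (pt a) (pt b) → c ∈ M.closure {a, b} := by
    intro a ha b hb hab hind c hc hcl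
    rw [hind.mem_closure_iff']
    refine ⟨hc, fun h3 => ?_⟩
    by_contra hcon
    simp only [Set.mem_insert_iff, Set.mem_singleton_iff, not_or] at hcon
    have h4 := (hcol a ha b hb c hc hab (Ne.symm hcon.1) (Ne.symm hcon.2)).mp hcl
    apply h4
    refine h3.subset ?_
    intro x hx
    simp only [Set.mem_insert_iff, Set.mem_singleton_iff] at hx ⊢
    tauto
  have hcount : {A : Set α | M.IsFlat A ∧ M.eRk A = 2}.encard ≤
      (((Finset.univ : Finset (ℙ (ZMod p) (Fin 3 → ZMod p))).filter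
        (fun ℓ => 2 ≤ rk S ℓ) : Finset _) : Set (ℙ (ZMod p) (Fin 3 → ZMod p))).encard := by
    apply Set.encard_le_encard_of_injOn (f := f)
    · rintro A ⟨hA, h2⟩
      obtain ⟨a, b, hab, hind, -, hfA⟩ := hf A hA h2
      have haE : a ∈ M.E := hind.subset_ground (by simp)
      have hbE : b ∈ M.E := hind.subset_ground (by simp)
      have hne := hpne a haE b hbE hab
      rw [Finset.mem_coe, Finset.mem_filter]
      refine ⟨Finset.mem_univ _, ?_⟩
      rw [hfA, rk_eq]
      have h3 : 1 < (S.filter (fun x => x ∈ ln (ℙ (ZMod p) (Fin 3 → ZMod p)) (pt a) (pt b))).card :=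
        Finset.one_lt_card.mpr ⟨pt a, Finset.mem_filter.mpr ⟨Finset.mem_image_of_mem _
          ((hmem a).mpr haE), left_mem_ln hne⟩, pt b, Finset.mem_filter.mpr
          ⟨Finset.mem_image_of_mem _ ((hmem b).mpr hbE), right_mem_ln hne⟩, hne⟩
      exact h3
    · rintro A ⟨hA, h2⟩ B ⟨hB, h3⟩ hAB
      obtain ⟨a, b, hab, hind, hcA, hfA⟩ := hf A hA h2
      obtain ⟨c, d, hcd, hind', hcB, hfB⟩ := hf B hB h3
      have haE : a ∈ M.E := hind.subset_ground (by simp)
      have hbE : b ∈ M.E := hind.subset_ground (by simp)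
      have hcE : c ∈ M.E := hind'.subset_ground (by simp)
      have hdE : d ∈ M.E := hind'.subset_ground (by simp)
      have hne := hpne a haE b hbE hab
      have hne' := hpne c hcE d hdE hcd
      have heq : ln (ℙ (ZMod p) (Fin 3 → ZMod p)) (pt a) (pt b) =
          ln (ℙ (ZMod p) (Fin 3 → ZMod p)) (pt c) (pt d) := by
        rw [← hfA, ← hfB]
        exact hAB
      have h4 : M.closure {c, d} ⊆ M.closure {a, b} := by
        apply M.closure_subset_closure_of_subset_closure
        intro x hx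
        simp only [Set.mem_insert_iff, Set.mem_singleton_iff] at hx
        rcases hx with rfl | rfl
        · exact hon a haE b hbE hab hind x hcE (by rw [heq]; exact left_mem_ln hne')
        · exact hon a haE b hbE hab hind x hdE (by rw [heq]; exact right_mem_ln hne')
      have h5 : M.closure {a, b} ⊆ M.closure {c, d} := by
        apply M.closure_subset_closure_of_subset_closure
        intro x hx
        simp only [Set.mem_insert_iff, Set.mem_singleton_iff] at hx
        rcases hx with rfl | rfl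
        · exact hon c hcE d hdE hcd hind' x haE (by rw [← heq]; exact left_mem_ln hne)
        · exact hon c hcE d hdE hcd hind' x hbE (by rw [← heq]; exact right_mem_ln hne)
      rw [← hcA, ← hcB]
      exact Set.Subset.antisymm h5 h4
  have hcount2 : p ^ 2 + 3 ≤ ((Finset.univ : Finset (ℙ (ZMod p) (Fin 3 → ZMod p))).filter
      (fun ℓ => 2 ≤ rk S ℓ)).card := by
    have h1 := hL.trans hcount
    rw [Set.encard_coe_eq_coe_finsetCard] at h1
    exact_mod_cast h1
  have hsum : ((Finset.univ : Finset (ℙ (ZMod p) (Fin 3 → ZMod p))).filter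
      (fun ℓ => 2 ≤ rk S ℓ)).card + tcount (ℙ (ZMod p) (Fin 3 → ZMod p)) S 0 +
      tcount (ℙ (ZMod p) (Fin 3 → ZMod p)) S 1 = p ^ 2 + p + 1 := by
    have h1 := ProjectivePlane.card_lines (ℙ (ZMod p) (Fin 3 → ZMod p))
      (ℙ (ZMod p) (Fin 3 → ZMod p))
    rw [ho, ← Finset.card_univ] at h1
    have h2 := Finset.card_filter_add_card_filter_not
      (s := (Finset.univ : Finset (ℙ (ZMod p) (Fin 3 → ZMod p)))) (fun ℓ => 2 ≤ rk S ℓ)
    have h3 := Finset.card_filter_add_card_filter_not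
      (s := (Finset.univ : Finset (ℙ (ZMod p) (Fin 3 → ZMod p))).filter
        (fun ℓ => ¬ 2 ≤ rk S ℓ)) (fun ℓ => rk S ℓ = 0)
    rw [Finset.filter_filter, Finset.filter_filter] at h3
    have h4 : (Finset.univ : Finset (ℙ (ZMod p) (Fin 3 → ZMod p))).filter
        (fun ℓ => ¬ 2 ≤ rk S ℓ ∧ rk S ℓ = 0) =
        (Finset.univ : Finset (ℙ (ZMod p) (Fin 3 → ZMod p))).filter (fun ℓ => rk S ℓ = 0) := by
      apply Finset.filter_congr
      intro ℓ _
      omega
    have h5 : (Finset.univ : Finset (ℙ (ZMod p) (Fin 3 → ZMod p))).filter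
        (fun ℓ => ¬ 2 ≤ rk S ℓ ∧ ¬ rk S ℓ = 0) =
        (Finset.univ : Finset (ℙ (ZMod p) (Fin 3 → ZMod p))).filter (fun ℓ => rk S ℓ = 1) := by
      apply Finset.filter_congr
      intro ℓ _
      omega
    rw [h4, h5] at h3
    rw [tcount, tcount]
    have h6 : (Finset.univ : Finset (ℙ (ZMod p) (Fin 3 → ZMod p))).card = p ^ 2 + p + 1 := h1
    rw [h6] at h2
    have e0 : (Finset.univ.filter
        (fun ℓ : ℙ (ZMod p) (Fin 3 → ZMod p) => rk S ℓ = 0)).card =
        (Finset.univ.filter (fun ℓ : ℙ (ZMod p) (Fin 3 → ZMod p) => rk S ℓ = 0)).card := rfl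
    omega
  obtain ⟨T, j, hT, hj1, hjq, hTj, H⟩ := tangents_pt hC (by rw [ho]; exact hq0)
    (by rw [ho, hSc]; exact hcard) (by rw [ho, hSc]; omega)
  exact no_many hC.mem (by rw [ho]; omega) (by rw [ho, hSc]; exact hcard) (by rw [ho]; omega)
    hT hj1 hjq hTj H

/-- **Threshold for rich matroids.** -/
theorem forces_rich (h5 : 5 ≤ p) : ForcesRich.{u, v} p (3 * p + 1) := by
  intro α M hs hr hF hN hL K _ hK
  rcases hL with hL | hL
  · exact charP_of_longLine h5 hs hr hF hN hL hK
  · exact charP_of_manyLines h5 hs hr hF hN hL hK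

end

end Pool.Agent.Helper85_Gamma
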