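import Mathlib
import Pool.Agent.Helper85_Gamma.Glue
import Pool.Agent.Helper85_Gamma.Ex

/-!
The example has `p ^ 2 + 3` lines and is representable in every characteristic different from `p`.
-/

namespace Pool.Agent.Helper85_Gamma
open Pool.Agent.Helper61_Gamma Set

universe u v

section lines

variable {p : ℕ} [hp : Fact p.Prime]

lemma exMat_mem_closure {x y z : ULift.{u} (Fin 3 × ZMod p)} (hxy : x ≠ y) :
    z ∈ (exMat.{u} p).closure {x, y} →
      z = x ∨ z = y ∨ Dt (exV p z) (exV p x) (exV p y) = 0 := by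
  classical
  intro hz
  have hs := (exMat_spec.{u, 0} p).1
  have hE : ∀ w, w ∈ (exMat.{u} p).E := by
    intro w
    rw [exMat, vec_E]
    exact mem_univ _
  have hind : (exMat.{u} p).Indep {x, y} := hs x (hE x) y (hE y)
  rw [hind.mem_closure_iff'] at hz
  by_cases h1 : z = x
  · exact Or.inl h1
  · by_cases h2 : z = y
    · exact Or.inr (Or.inl h2)
    · right
      right
      by_contra h3
      have h4 : (exMat.{u} p).Indep {z, x, y} := by
        rw [exMat, vec_indep, linearIndepOn_iff_Dt _ h1 h2 hxy]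
        exact h3
      rcases hz.2 h4 with h5 | h5
      · exact h1 h5
      · exact h2 h5

lemma Dt_same {i j : Fin 3} (hij : i ≠ j) (a b c : ZMod p) :
    Dt (netA p (j, c)) (netA p (i, a)) (netA p (i, b)) = 0 → a = b := by
  fin_cases i <;> fin_cases j <;> simp [Dt, netA] at hij ⊢
  all_goals intro h
  all_goals first
    | linear_combination h
    | linear_combination (-1 : ZMod p) * h

lemma Dt_same' {i j : Fin 3} (hij : i ≠ j) (a b c : ZMod p) :
    Dt (netA p (i, c)) (netA p (i, a)) (netA p (j, b)) = 0 → c = a := by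
  fin_cases i <;> fin_cases j <;> simp [Dt, netA] at hij ⊢
  all_goals intro h
  all_goals first
    | linear_combination h
    | linear_combination (-1 : ZMod p) * h

lemma Dt_same'' {i j : Fin 3} (hij : i ≠ j) (a b c : ZMod p) :
    Dt (netA p (i, c)) (netA p (j, b)) (netA p (i, a)) = 0 → c = a := by
  fin_cases i <;> fin_cases j <;> simp [Dt, netA] at hij ⊢
  all_goals intro h
  all_goals first
    | linear_combination h
    | linear_combination (-1 : ZMod p) * h

/-- a point of the example -/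
def pnt (i : Fin 3) (a : ZMod p) : ULift.{u} (Fin 3 × ZMod p) := ⟨(i, a)⟩

/-- the lines of the example -/
noncomputable def exLine : (ZMod p × ZMod p) ⊕ Fin 3 → Set (ULift.{u} (Fin 3 × ZMod p))
  | .inl ab => (exMat.{u} p).closure {pnt 0 ab.1, pnt 1 ab.2}
  | .inr i => (exMat.{u} p).closure {pnt i 0, pnt i 1}

lemma pnt_inj {i j : Fin 3} {a b : ZMod p} (h : pnt.{u} i a = pnt j b) : i = j ∧ a = b := by
  have := congrArg ULift.down h
  exact ⟨congrArg Prod.fst this, congrArg Prod.snd this⟩

lemma line_class {i j : Fin 3} {a : ZMod p}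
    (h : pnt.{u} j a ∈ (exMat.{u} p).closure {pnt i 0, pnt i 1}) : j = i := by
  have h01 : (0 : ZMod p) ≠ 1 := zero_ne_one
  rcases exMat_mem_closure (fun h => h01 (pnt_inj h).2) h with h1 | h1 | h1
  · exact (pnt_inj h1).1
  · exact (pnt_inj h1).1
  · by_contra hij
    exact h01 (Dt_same (Ne.symm hij) 0 1 a h1)

lemma subset_cl (x y : ULift.{u} (Fin 3 × ZMod p)) :
    x ∈ (exMat.{u} p).closure {x, y} ∧ y ∈ (exMat.{u} p).closure {x, y} := by
  have hsub : ({x, y} : Set (ULift.{u} (Fin 3 × ZMod p))) ⊆ (exMat.{u} p).E := by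
    rw [exMat, vec_E]
    exact subset_univ _
  have := (exMat.{u} p).subset_closure {x, y} hsub
  exact ⟨this (by simp), this (by simp)⟩

theorem exLine_injective : Function.Injective (exLine.{u} (p := p)) := by
  have h01 : (0 : Fin 3) ≠ 1 := by decide
  have key : ∀ a b a' b' : ZMod p,
      (exMat.{u} p).closure {pnt 0 a, pnt 1 b} = (exMat.{u} p).closure {pnt 0 a', pnt 1 b'} →
        a = a' ∧ b = b' := by
    intro a b a' b' h
    have hne : pnt.{u} (0 : Fin 3) a' ≠ pnt 1 b' := fun h => h01 (pnt_inj h).1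
    obtain ⟨h1, h2⟩ := subset_cl.{u} (pnt (0 : Fin 3) a) (pnt 1 b)
    rw [h] at h1 h2
    constructor
    · rcases exMat_mem_closure hne h1 with h3 | h3 | h3
      · exact (pnt_inj h3).2
      · exact absurd (pnt_inj h3).1 h01
      · exact Dt_same' h01 a' b' a h3
    · rcases exMat_mem_closure hne h2 with h3 | h3 | h3
      · exact absurd (pnt_inj h3).1.symm h01
      · exact (pnt_inj h3).2
      · exact Dt_same'' h01.symm b' a' b h3
  have key2 : ∀ (a b : ZMod p) (i : Fin 3),
      (exMat.{u} p).closure {pnt 0 a, pnt 1 b} ≠ (exMat.{u} p).closure {pnt i 0, pnt i 1} := by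
    intro a b i h
    obtain ⟨h1, h2⟩ := subset_cl.{u} (pnt (0 : Fin 3) a) (pnt 1 b)
    rw [h] at h1 h2
    have h3 := line_class h1
    have h4 := line_class h2
    exact h01 (h3.trans h4.symm)
  rintro (⟨a, b⟩ | i) (⟨a', b'⟩ | j) h
  · obtain ⟨h1, h2⟩ := key a b a' b' h
    rw [h1, h2]
  · exact absurd h (key2 a b j)
  · exact absurd h.symm (key2 a' b' i)
  · have h1 : pnt.{u} i (0 : ZMod p) ∈ (exMat.{u} p).closure {pnt j 0, pnt j 1} := by
      have h2 := (subset_cl.{u} (pnt i (0 : ZMod p)) (pnt i 1)).1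
      have h3 : (exMat.{u} p).closure {pnt i 0, pnt i 1} =
        (exMat.{u} p).closure {pnt j 0, pnt j 1} := h
      rwa [h3] at h2
    rw [line_class h1]

theorem exMat_many : ManyLines p (exMat.{u} p) := by
  classical
  have hs := (exMat_spec.{u, 0} p).1
  have hE : ∀ w, w ∈ (exMat.{u} p).E := by
    intro w
    rw [exMat, vec_E]
    exact mem_univ _
  have hpair : ∀ x y : ULift.{u} (Fin 3 × ZMod p), x ≠ y →
      (exMat.{u} p).IsFlat ((exMat.{u} p).closure {x, y}) ∧
        (exMat.{u} p).eRk ((exMat.{u} p).closure {x, y}) = 2 := by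
    intro x y hxy
    refine ⟨(exMat.{u} p).isFlat_closure _, ?_⟩
    rw [Matroid.eRk_closure_eq, (hs x (hE x) y (hE y)).eRk_eq_encard, encard_pair hxy]
  have h01 : (0 : Fin 3) ≠ 1 := by decide
  have hz01 : (0 : ZMod p) ≠ 1 := zero_ne_one
  have hsub : range (exLine.{u} (p := p)) ⊆
      {A | (exMat.{u} p).IsFlat A ∧ (exMat.{u} p).eRk A = 2} := by
    rintro _ ⟨(⟨a, b⟩ | i), rfl⟩
    · exact hpair _ _ (fun h => h01 (pnt_inj h).1)
    · exact hpair _ _ (fun h => hz01 (pnt_inj h).2)
  have hcard : (range (exLine.{u} (p := p))).encard = ((p ^ 2 + 3 : ℕ) : ℕ∞) := by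
    rw [← image_univ, exLine_injective.injOn.encard_image, encard_univ,
      ENat.card_eq_coe_fintype_card]
    simp [ZMod.card, sq]
  rw [ManyLines, ← hcard]
  exact encard_le_encard hsub

theorem exMat_long : LongLine p (exMat.{u} p) := (exMat_spec.{u, 0} p).2.2.2.2.1

end lines

end Pool.Agent.Helper85_Gamma
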