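import Mathlib
import Pool.Agent.Helper85_Gamma.Ex

/-!
The example is representable in every characteristic different from `p`.
-/

namespace Pool.Agent.Helper85_Gamma
open Pool.Agent.Helper61_Gamma Set

universe u v

/-- an embedding of the additive group of `ZMod p` in the multiplicative group -/
lemma exists_char {p : ℕ} [hp : Fact p.Prime] {K : Type v} [Field K] {ζ : K}
    (h : IsPrimitiveRoot ζ p) : ∃ e : ZMod p → K, (∀ x y, e (x + y) = e x * e y) ∧
      Function.Injective e ∧ e 0 = 1 := by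
  refine ⟨fun x => ζ ^ x.val, ?_, ?_, ?_⟩
  · intro x y
    simp only
    rw [ZMod.val_add, ← pow_add, ← pow_mod_orderOf ζ ((x.val + y.val) % p),
      ← pow_mod_orderOf ζ (x.val + y.val), ← h.eq_orderOf, Nat.mod_mod]
  · intro x y hxy
    exact ZMod.val_injective p (h.pow_inj (ZMod.val_lt x) (ZMod.val_lt y) hxy)
  · simp

lemma rep_of_root {p : ℕ} [hp : Fact p.Prime] {F : Type} [Field F] {ζ : F}
    (h : IsPrimitiveRoot ζ p) : RepOver (ULift.{v} F) (exMat.{u} p) := by
  obtain ⟨e, h1, h2, h3⟩ := exists_char h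
  refine (exMat_spec.{u, v} p).2.2.2.2.2 (ULift.{v} F) (fun x => ULift.up (e x)) ?_ ?_ ?_
  · intro x y
    rw [h1]
    rfl
  · intro x y hxy
    exact h2 (ULift.up_injective hxy)
  · rw [h3]
    rfl

/-- the example is representable in characteristic `ℓ` for every `ℓ ≠ p` -/
theorem exMat_rep {p : ℕ} [hp : Fact p.Prime] (ℓ : ℕ) (hℓ : ℓ = 0 ∨ ℓ.Prime) (hne : ℓ ≠ p) :
    ∃ (K : Type v) (_ : Field K), CharP K ℓ ∧ RepOver K (exMat.{u} p) := by
  rcases hℓ with rfl | hℓ
  · have h0 : NeZero ((p : ℕ) : AlgebraicClosure ℚ) :=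
      ⟨by
        rw [Nat.cast_ne_zero]
        exact hp.out.ne_zero⟩
    obtain ⟨ζ, hζ⟩ := HasEnoughRootsOfUnity.exists_primitiveRoot (AlgebraicClosure ℚ) p
    refine ⟨ULift.{v} (AlgebraicClosure ℚ), inferInstance, ?_, rep_of_root hζ⟩
    have : CharP (AlgebraicClosure ℚ) 0 := CharP.ofCharZero _
    infer_instance
  · haveI : Fact ℓ.Prime := ⟨hℓ⟩
    have hc : CharP (AlgebraicClosure (ZMod ℓ)) ℓ :=
      charP_of_injective_algebraMap (algebraMap (ZMod ℓ) (AlgebraicClosure (ZMod ℓ))).injective ℓ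
    have h0 : NeZero ((p : ℕ) : AlgebraicClosure (ZMod ℓ)) := by
      refine ⟨fun h => hne ?_⟩
      rw [CharP.cast_eq_zero_iff (AlgebraicClosure (ZMod ℓ)) ℓ] at h
      exact (Nat.prime_dvd_prime_iff_eq hℓ hp.out).mp h
    obtain ⟨ζ, hζ⟩ := HasEnoughRootsOfUnity.exists_primitiveRoot (AlgebraicClosure (ZMod ℓ)) p
    exact ⟨ULift.{v} (AlgebraicClosure (ZMod ℓ)), inferInstance, inferInstance, rep_of_root hζ⟩

end Pool.Agent.Helper85_Gamma
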