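import Mathlib
import Pool.Agent.Helper85_Gamma.Glue

/-!
Matroids with many points and lines.
-/

namespace Pool.Agent.Helper85_Gamma

section

open Configuration Configuration.ProjectivePlane

open Pool.Agent.Helper61_Gamma

variable {P L : Type*} [Membership P L] [ProjectivePlane P L]
variable [DecidableEq P] [Fintype L] [Fintype P]

/-- sets with many points and secants -/
theorem no_many2 {S T : Finset P} {ω : P} {j : ℕ} (hω : ω ∈ S)
    (ht : tcount L S 1 + 2 * order P L + 3 ≤ S.card) (hS : 3 * order P L + 1 ≤ S.card) (hq : 3 ≤ order P L)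
    (hT : T ⊆ S.erase ω) (hj1 : 1 ≤ j) (hjq : j ≤ order P L) (hTj : T.card ≤ j)
    (H : ∀ s ∈ S.erase ω \ T,
      j ≤ ((thr L s).filter (fun ℓ => rk (S.erase ω \ T) ℓ = 1)).card) : False := by
  classical
  set q := order P L with hqdef
  set X := S.erase ω \ T with hX
  have hXc : X.card + T.card + 1 = S.card := by
    have := Finset.card_sdiff_add_card_eq_card hT
    rw [Finset.card_erase_of_mem hω] at this
    have h0 : 0 < S.card := Finset.card_pos.mpr ⟨ω, hω⟩
    rw [hX]
    omega
  have h1 := tcount_one_ge (L := L) X j H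
  have hy : ∀ R ∈ insert ω T, ((thr L R).filter (fun ℓ' => rk X ℓ' = 1)).card ≤ q := by
    intro R hR
    have hRX : R ∉ X := by
      intro h2
      rw [hX, Finset.mem_sdiff, Finset.mem_erase] at h2
      rcases Finset.mem_insert.mp hR with h3 | h3
      · exact h2.1.1 h3
      · exact h2.2 h3
    by_contra hcon
    push Not at hcon
    have h3 : (thr L R).filter (fun ℓ' => rk X ℓ' = 1) = thr L R := by
      apply Finset.eq_of_subset_of_card_le (Finset.filter_subset _ _)
      rw [card_thr (P := P) (L := L) R]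
      omega
    have h4 : ∀ ℓ' ∈ thr L R, rk X ℓ' = 1 := by
      intro ℓ' hℓ'
      rw [← h3] at hℓ'
      exact (Finset.mem_filter.mp hℓ').2
    have h5 := sum_rk_thr (L := L) hRX
    rw [Finset.sum_congr rfl h4, Finset.sum_const, card_thr (P := P) (L := L) R, smul_eq_mul,
      mul_one] at h5
    omega
  have h2 : tcount L X 1 ≤ tcount L S 1 + (insert ω T).card * q := by
    have h3 : (Finset.univ.filter (fun ℓ : L => rk X ℓ = 1)) ⊆
        (Finset.univ.filter (fun ℓ : L => rk S ℓ = 1)) ∪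
          (insert ω T).biUnion (fun R => (thr L R).filter (fun ℓ' => rk X ℓ' = 1)) := by
      intro ℓ' hℓ'
      have h4 := (Finset.mem_filter.mp hℓ').2
      rw [Finset.mem_union]
      by_cases h5 : ∃ R ∈ insert ω T, R ∈ ℓ'
      · right
        obtain ⟨R, hR, hRℓ⟩ := h5
        exact Finset.mem_biUnion.mpr ⟨R, hR, Finset.mem_filter.mpr ⟨mem_thr.mpr hRℓ, h4⟩⟩
      · left
        push Not at h5
        refine Finset.mem_filter.mpr ⟨Finset.mem_univ _, ?_⟩
        rw [← h4, rk_eq, rk_eq]
        congr 1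
        ext R
        simp only [Finset.mem_filter, hX, Finset.mem_sdiff, Finset.mem_erase]
        constructor
        · rintro ⟨h6, h7⟩
          refine ⟨⟨⟨?_, h6⟩, ?_⟩, h7⟩
          · rintro rfl
            exact h5 R (Finset.mem_insert_self _ _) h7
          · intro h8
            exact h5 R (Finset.mem_insert_of_mem h8) h7
        · rintro ⟨⟨⟨-, h6⟩, -⟩, h7⟩
          exact ⟨h6, h7⟩
    rw [tcount, tcount]
    refine (Finset.card_le_card h3).trans ((Finset.card_union_le _ _).trans ?_)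
    apply Nat.add_le_add_left
    refine Finset.card_biUnion_le.trans ?_
    rw [← smul_eq_mul]
    exact Finset.sum_le_card_nsmul _ _ _ hy
  have h3 : (insert ω T).card ≤ T.card + 1 := Finset.card_insert_le _ _
  have h4 : (insert ω T).card * q ≤ (T.card + 1) * q := Nat.mul_le_mul_right q h3
  have h5 : j * X.card ≤ tcount L S 1 + (T.card + 1) * q := h1.trans (h2.trans (by omega))
  have h6 : (3 : ℤ) * q ≤ X.card + T.card := by omega
  have h7 : (j : ℤ) * X.card ≤ tcount L S 1 + (T.card + 1) * q := by exact_mod_cast h5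
  have h8 : (T.card : ℤ) ≤ j := by exact_mod_cast hTj
  have h9 : (1 : ℤ) ≤ j := by exact_mod_cast hj1
  have h10 : (j : ℤ) ≤ q := by exact_mod_cast hjq
  have h11 : (tcount L S 1 : ℤ) + 2 * q + 3 ≤ X.card + T.card + 1 := by
    have : tcount L S 1 + 2 * q + 3 ≤ X.card + T.card + 1 := by omega
    exact_mod_cast this
  have hm1 : (0 : ℤ) ≤ (j - 1) * (X.card + T.card - 3 * q) :=
    mul_nonneg (by linarith) (by linarith)
  have hm2 : (0 : ℤ) ≤ (j + q) * (j - T.card) := mul_nonneg (by linarith) (by linarith)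
  have hm3 : (0 : ℤ) ≤ (j - 1) * (q - j) := mul_nonneg (by linarith) (by linarith)
  nlinarith [sq_nonneg ((j : ℤ) - 1)]

end

open Configuration Projectivization
open scoped LinearAlgebra.Projectivization
open Pool.Agent.Helper61_Gamma

universe u v w

section

variable {p : ℕ} [hp : Fact p.Prime]

/-- If `|G| ≥ 3 p + 1` and `|G|` plus the number of lines of `G` is at least `p ^ 2 + 3 p + 4`, all
fields over which `G` is representable have characteristic `p`. -/
theorem charP_of_points_lines (h5 : 5 ≤ p) {α : Type u} {M : Matroid α} (hs : IsSimple M)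
    (hr : M.eRank = 3) (hF : RepOver (ZMod p) M)
    (hN : ((3 * p + 1 : ℕ) : ℕ∞) ≤ M.E.encard) 
    (hL : ((p ^ 2 + 3 * p + 4 : ℕ) : ℕ∞) ≤
      M.E.encard + {A : Set α | M.IsFlat A ∧ M.eRk A = 2}.encard) {K : Type v} [Field K]
    (hK : RepOver K M) : CharP K p := by
  classical
  by_contra hch
  have hq0 := char_ne_zero (p := p) hch
  have : Fintype (ℙ (ZMod p) (Fin 3 → ZMod p)) := Fintype.ofFinite _
  have hfin := finite_ground hs hr hF hK
  set E' := hfin.toFinset with hE'
  have hE'c : (E' : Set α) = M.E := hfin.coe_toFinset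
  have hmem : ∀ e, e ∈ E' ↔ e ∈ M.E := fun e => hfin.mem_toFinset
  have hcard : 3 * p + 1 ≤ E'.card := by
    have h1 : ((3 * p + 1 : ℕ) : ℕ∞) ≤ ((E'.card : ℕ) : ℕ∞) := by
      rw [← Set.encard_coe_eq_coe_finsetCard, hE'c]
      exact hN
    exact_mod_cast h1
  obtain ⟨ω, hω⟩ : E'.Nonempty := Finset.card_pos.mp (by omega)
  obtain ⟨pt, m, k, hinj, hcol, hC⟩ := exists_coord_pt hs hr hF hK hE'c.subset hω
  have hSc : (E'.image pt).card = E'.card :=
    Finset.card_image_of_injOn (hinj.mono hE'c.subset)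
  have ho := order_ZMod (p := p)
  set S := E'.image pt with hS
  -- the lines of the matroid inject into the secants
  have hbas : ∀ A : Set α, M.IsFlat A → M.eRk A = 2 →
      ∃ a b, a ≠ b ∧ M.Indep {a, b} ∧ M.closure {a, b} = A := by
    intro A hA h2
    obtain ⟨I, hI⟩ := M.exists_isBasis A hA.subset_ground
    have h3 := hI.encard_eq_eRk
    rw [h2] at h3
    obtain ⟨a, b, hab, rfl⟩ := Set.encard_eq_two.mp h3
    exact ⟨a, b, hab, hI.indep, by rw [hI.closure_eq_closure, hA.closure]⟩
  let f : Set α → ℙ (ZMod p) (Fin 3 → ZMod p) := fun A =>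
    if h : ∃ a b, a ≠ b ∧ M.Indep {a, b} ∧ M.closure {a, b} = A then
      ln (ℙ (ZMod p) (Fin 3 → ZMod p)) (pt h.choose) (pt h.choose_spec.choose) else pt ω
  have hf : ∀ A : Set α, M.IsFlat A → M.eRk A = 2 →
      ∃ a b, a ≠ b ∧ M.Indep {a, b} ∧ M.closure {a, b} = A ∧
        f A = ln (ℙ (ZMod p) (Fin 3 → ZMod p)) (pt a) (pt b) := by
    intro A hA h2
    have h := hbas A hA h2
    refine ⟨h.choose, h.choose_spec.choose, h.choose_spec.choose_spec.1,
      h.choose_spec.choose_spec.2.1, h.choose_spec.choose_spec.2.2, ?_⟩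
    simp only [f]
    rw [dif_pos h]
  have hpne : ∀ a ∈ M.E, ∀ b ∈ M.E, a ≠ b → pt a ≠ pt b := fun a ha b hb hab h =>
    hab (hinj ha hb h)
  have hon : ∀ a ∈ M.E, ∀ b ∈ M.E, a ≠ b → M.Indep {a, b} → ∀ c ∈ M.E,
      pt c ∈ ln (ℙ (ZMod p) (Fin 3 → ZMod p)) (pt a) (pt b) → c ∈ M.closure {a, b} := by
    intro a ha b hb hab hind c hc hcl
    rw [hind.mem_closure_iff']
    refine ⟨hc, fun h3 => ?_⟩
    by_contra hcon
    simp only [Set.mem_insert_iff, Set.mem_singleton_iff, not_or] at hcon
    have h4 := (hcol a ha b hb c hc hab (Ne.symm hcon.1) (Ne.symm hcon.2)).mp hcl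
    apply h4
    refine h3.subset ?_
    intro x hx
    simp only [Set.mem_insert_iff, Set.mem_singleton_iff] at hx ⊢
    tauto
  have hcount : {A : Set α | M.IsFlat A ∧ M.eRk A = 2}.encard ≤
      (((Finset.univ : Finset (ℙ (ZMod p) (Fin 3 → ZMod p))).filter
        (fun ℓ => 2 ≤ rk S ℓ) : Finset _) : Set (ℙ (ZMod p) (Fin 3 → ZMod p))).encard := by
    apply Set.encard_le_encard_of_injOn (f := f)
    · rintro A ⟨hA, h2⟩
      obtain ⟨a, b, hab, hind, -, hfA⟩ := hf A hA h2
      have haE : a ∈ M.E := hind.subset_ground (by simp)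
      have hbE : b ∈ M.E := hind.subset_ground (by simp)
      have hne := hpne a haE b hbE hab
      rw [Finset.mem_coe, Finset.mem_filter]
      refine ⟨Finset.mem_univ _, ?_⟩
      rw [hfA, rk_eq]
      have h3 : 1 < (S.filter (fun x => x ∈ ln (ℙ (ZMod p) (Fin 3 → ZMod p)) (pt a) (pt b))).card :=
        Finset.one_lt_card.mpr ⟨pt a, Finset.mem_filter.mpr ⟨Finset.mem_image_of_mem _
          ((hmem a).mpr haE), left_mem_ln hne⟩, pt b, Finset.mem_filter.mpr
          ⟨Finset.mem_image_of_mem _ ((hmem b).mpr hbE), right_mem_ln hne⟩, hne⟩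
      exact h3
    · rintro A ⟨hA, h2⟩ B ⟨hB, h3⟩ hAB
      obtain ⟨a, b, hab, hind, hcA, hfA⟩ := hf A hA h2
      obtain ⟨c, d, hcd, hind', hcB, hfB⟩ := hf B hB h3
      have haE : a ∈ M.E := hind.subset_ground (by simp)
      have hbE : b ∈ M.E := hind.subset_ground (by simp)
      have hcE : c ∈ M.E := hind'.subset_ground (by simp)
      have hdE : d ∈ M.E := hind'.subset_ground (by simp)
      have hne := hpne a haE b hbE hab
      have hne' := hpne c hcE d hdE hcd
      have heq : ln (ℙ (ZMod p) (Fin 3 → ZMod p)) (pt a) (pt b) =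
          ln (ℙ (ZMod p) (Fin 3 → ZMod p)) (pt c) (pt d) := by
        rw [← hfA, ← hfB]
        exact hAB
      have h4 : M.closure {c, d} ⊆ M.closure {a, b} := by
        apply M.closure_subset_closure_of_subset_closure
        intro x hx
        simp only [Set.mem_insert_iff, Set.mem_singleton_iff] at hx
        rcases hx with rfl | rfl
        · exact hon a haE b hbE hab hind x hcE (by rw [heq]; exact left_mem_ln hne')
        · exact hon a haE b hbE hab hind x hdE (by rw [heq]; exact right_mem_ln hne')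
      have h5 : M.closure {a, b} ⊆ M.closure {c, d} := by
        apply M.closure_subset_closure_of_subset_closure
        intro x hx
        simp only [Set.mem_insert_iff, Set.mem_singleton_iff] at hx
        rcases hx with rfl | rfl
        · exact hon c hcE d hdE hcd hind' x haE (by rw [← heq]; exact left_mem_ln hne)
        · exact hon c hcE d hdE hcd hind' x hbE (by rw [← heq]; exact right_mem_ln hne)
      rw [← hcA, ← hcB]
      exact Set.Subset.antisymm h5 h4
  have hcount2 : p ^ 2 + 3 * p + 4 ≤ E'.card +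
      ((Finset.univ : Finset (ℙ (ZMod p) (Fin 3 → ZMod p))).filter
      (fun ℓ => 2 ≤ rk S ℓ)).card := by
    have h1 := hL.trans (add_le_add le_rfl hcount)
    rw [Set.encard_coe_eq_coe_finsetCard, ← hE'c, Set.encard_coe_eq_coe_finsetCard] at h1
    exact_mod_cast h1
  have hsum : ((Finset.univ : Finset (ℙ (ZMod p) (Fin 3 → ZMod p))).filter
      (fun ℓ => 2 ≤ rk S ℓ)).card + tcount (ℙ (ZMod p) (Fin 3 → ZMod p)) S 0 +
      tcount (ℙ (ZMod p) (Fin 3 → ZMod p)) S 1 = p ^ 2 + p + 1 := by
    have h1 := ProjectivePlane.card_lines (ℙ (ZMod p) (Fin 3 → ZMod p))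
      (ℙ (ZMod p) (Fin 3 → ZMod p))
    rw [ho, ← Finset.card_univ] at h1
    have h2 := Finset.card_filter_add_card_filter_not
      (s := (Finset.univ : Finset (ℙ (ZMod p) (Fin 3 → ZMod p)))) (fun ℓ => 2 ≤ rk S ℓ)
    have h3 := Finset.card_filter_add_card_filter_not
      (s := (Finset.univ : Finset (ℙ (ZMod p) (Fin 3 → ZMod p))).filter
        (fun ℓ => ¬ 2 ≤ rk S ℓ)) (fun ℓ => rk S ℓ = 0)
    rw [Finset.filter_filter, Finset.filter_filter] at h3
    have h4 : (Finset.univ : Finset (ℙ (ZMod p) (Fin 3 → ZMod p))).filter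
        (fun ℓ => ¬ 2 ≤ rk S ℓ ∧ rk S ℓ = 0) =
        (Finset.univ : Finset (ℙ (ZMod p) (Fin 3 → ZMod p))).filter (fun ℓ => rk S ℓ = 0) := by
      apply Finset.filter_congr
      intro ℓ _
      omega
    have h5 : (Finset.univ : Finset (ℙ (ZMod p) (Fin 3 → ZMod p))).filter
        (fun ℓ => ¬ 2 ≤ rk S ℓ ∧ ¬ rk S ℓ = 0) =
        (Finset.univ : Finset (ℙ (ZMod p) (Fin 3 → ZMod p))).filter (fun ℓ => rk S ℓ = 1) := by
      apply Finset.filter_congr
      intro ℓ _
      omega
    rw [h4, h5] at h3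
    rw [tcount, tcount]
    have h6 : (Finset.univ : Finset (ℙ (ZMod p) (Fin 3 → ZMod p))).card = p ^ 2 + p + 1 := h1
    rw [h6] at h2
    have e0 : (Finset.univ.filter
        (fun ℓ : ℙ (ZMod p) (Fin 3 → ZMod p) => rk S ℓ = 0)).card =
        (Finset.univ.filter (fun ℓ : ℙ (ZMod p) (Fin 3 → ZMod p) => rk S ℓ = 0)).card := rfl
    omega
  obtain ⟨T, j, hT, hj1, hjq, hTj, H⟩ := tangents_pt hC (by rw [ho]; exact hq0)
    (by rw [ho, hSc]; exact hcard) (by rw [ho, hSc]; omega)
  exact no_many2 hC.mem (by rw [ho, hSc]; omega) (by rw [ho, hSc]; exact hcard) (by rw [ho]; omega)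
    hT hj1 hjq hTj H

end

end Pool.Agent.Helper85_Gamma
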